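import Pool.Agent.H570R2.Mono.Stubs
import Pool.Agent.H549R2.PM8

/-!
# Task G: perfect matchings of the bipartite permutation graph of a list of intervals and keys
-/

namespace Pool.Agent.H570R2.Mono

open Finset Pool.Agent.H549R2.Convex

/-- Perfect matchings of a bipartite graph with `N + N` vertices and the permanent. -/
theorem card_pm_bip (L N : ℕ) (hL : L = N + N) (G : SimpleGraph (Fin L)) (A : List (List Bool))
    (hml : A.length = N) (hsq : ∀ r ∈ A, r.length = A.length)
    (hrc : ∀ i j : Fin L, i.val < N → N ≤ j.val →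
      (G.Adj i j ↔ ent A i.val (j.val - N) = true))
    (hcc : ∀ i j : Fin L, N ≤ i.val → N ≤ j.val → ¬ G.Adj i j) :
    Nat.card {M : G.Subgraph // M.IsPerfectMatching} = F A := by
  classical
  rw [F_eq_card' _ hsq N hml, Pool.Agent.H549R2.PM.card_pm, ← Fintype.card_subtype,
    ← Nat.card_eq_fintype_card]
  symm
  -- the involution of a permutation
  set fn : Equiv.Perm (Fin N) → Fin L → Fin L :=
    fun σ k => if hk : k.val < N then ⟨N + (σ ⟨k.val, hk⟩).val, by omega⟩ else
      ⟨(σ.symm ⟨k.val - N, by omega⟩).val, by omega⟩ with hfn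
  have hfn1 : ∀ (σ : Equiv.Perm (Fin N)) (k : Fin L) (hk : k.val < N),
      fn σ k = ⟨N + (σ ⟨k.val, hk⟩).val, by omega⟩ := fun σ k hk => dif_pos hk
  have hfn2 : ∀ (σ : Equiv.Perm (Fin N)) (k : Fin L) (hk : ¬ k.val < N),
      fn σ k = ⟨(σ.symm ⟨k.val - N, by omega⟩).val, by omega⟩ := fun σ k hk => dif_neg hk
  have hinv : ∀ σ k, fn σ (fn σ k) = k := by
    intro σ k
    by_cases hk : k.val < N
    · rw [hfn1 σ k hk, hfn2 _ _ (by simp only; omega)]
      apply Fin.ext
      simp only
      have : (⟨N + (σ ⟨k.val, hk⟩).val - N, by omega⟩ : Fin N) = σ ⟨k.val, hk⟩ := by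
        apply Fin.ext
        simp only
        omega
      rw [this, Equiv.symm_apply_apply]
    · rw [hfn2 σ k hk, hfn1 _ _ (by simp only; omega)]
      apply Fin.ext
      simp only
      have : (⟨(σ.symm ⟨k.val - N, by omega⟩).val, by omega⟩ : Fin N) =
          σ.symm ⟨k.val - N, by omega⟩ := rfl
      rw [Fin.eta, Equiv.apply_symm_apply]
      simp only
      omega
  have hadj1 : ∀ (σ : Equiv.Perm (Fin N)), (∀ i, ent A i.val (σ i).val = true) →
      ∀ (k : Fin L), k.val < N → G.Adj k (fn σ k) := by
    intro σ hσ k hk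
    have h1 := hσ ⟨k.val, hk⟩
    rw [hfn1 σ k hk, hrc _ _ hk (by simp only; omega)]
    simp only
    rw [Nat.add_sub_cancel_left]
    exact h1
  have hadj : ∀ (σ : Equiv.Perm (Fin N)), (∀ i, ent A i.val (σ i).val = true) →
      ∀ (k : Fin L), G.Adj k (fn σ k) := by
    intro σ hσ k
    by_cases hk : k.val < N
    · exact hadj1 σ hσ k hk
    · have h1 : (fn σ k).val < N := by
        rw [hfn2 σ k hk]
        exact (σ.symm ⟨k.val - N, by omega⟩).2
      have h2 := hadj1 σ hσ (fn σ k) h1
      rw [hinv] at h2
      exact h2.symm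
  refine Nat.card_congr (Equiv.ofBijective
    (fun σ : {σ : Equiv.Perm (Fin N) // ∀ i, ent A i.val (σ i).val = true} =>
      (⟨fn σ.1, hinv σ.1, hadj σ.1 σ.2⟩ : {f : Fin L → Fin L // (∀ i, f (f i) = i) ∧
          ∀ i, G.Adj i (f i)})) ⟨?_, ?_⟩)
  · rintro ⟨σ, hσ⟩ ⟨σ', hσ'⟩ h'
    apply Subtype.ext
    simp only
    ext i
    have h1 := congrFun (congrArg Subtype.val h') ⟨i.val, by omega⟩
    simp only at h1
    rw [hfn1 σ _ i.2, hfn1 σ' _ i.2] at h1
    simp only [Fin.mk.injEq, Fin.eta] at h1
    omega
  · rintro ⟨f, hf1, hf2⟩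
    have hfi : Function.Injective f := by
      intro a b hab
      rw [← hf1 a, ← hf1 b, hab]
    -- columns are matched to rows
    have hpt : ∀ k : Fin L, N ≤ k.val → (f k).val < N := by
      intro k hk
      by_contra hcon
      exact hcc k (f k) hk (by omega) (hf2 k)
    set g : Fin N → Fin N := fun c => ⟨(f ⟨N + c.val, by omega⟩).val, hpt _ (by simp)⟩ with hg
    have hgi : Function.Injective g := by
      intro c c' hc
      have h0 : (g c).val = (g c').val := congrArg Fin.val hc
      have h1 : (f ⟨N + c.val, by omega⟩) = f ⟨N + c'.val, by omega⟩ := Fin.ext h0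
      have h2 := Fin.ext_iff.1 (hfi h1)
      simp only at h2
      exact Fin.ext (by omega)
    have hgb : Function.Bijective g := Finite.injective_iff_bijective.1 hgi
    set e := Equiv.ofBijective g hgb with he
    have hkey : fn e.symm = f := by
      funext k
      by_cases hk : k.val < N
      · rw [hfn1 _ k hk]
        have h1 : g (e.symm ⟨k.val, hk⟩) = ⟨k.val, hk⟩ := Equiv.apply_symm_apply e ⟨k.val, hk⟩
        have h0 : (g (e.symm ⟨k.val, hk⟩)).val = k.val := congrArg Fin.val h1
        have h2 : f ⟨N + (e.symm ⟨k.val, hk⟩).val, by omega⟩ = k := Fin.ext h0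
        have h3 := congrArg f h2
        rw [hf1] at h3
        exact h3
      · rw [hfn2 _ k hk]
        apply Fin.ext
        simp only [Equiv.symm_symm]
        have h1 : e ⟨k.val - N, by omega⟩ = g ⟨k.val - N, by omega⟩ := rfl
        rw [h1]
        simp only [hg]
        congr 2
        apply Fin.ext
        simp only
        omega
    have hent2 : ∀ i, ent A i.val (e.symm i).val = true := by
      intro i
      have h2 := hf2 ⟨i.val, by omega⟩
      rw [← hkey, hfn1 _ _ i.2, hrc _ _ i.2 (by simp only; omega)] at h2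
      simp only at h2
      rw [Nat.add_sub_cancel_left] at h2
      exact h2
    refine ⟨⟨e.symm, hent2⟩, ?_⟩
    apply Subtype.ext
    exact hkey

theorem blk_lt {R u v i j : ℕ} (hi : i < R) (_ : j < R) (h : u < v) :
    u * R + i < v * R + j := by
  have h1 : (u + 1) * R ≤ v * R := Nat.mul_le_mul_right _ h
  rw [Nat.add_mul, Nat.one_mul] at h1
  omega

theorem blk_iff {R u v i j : ℕ} (hi : i < R) (hj : j < R) (hne : u ≠ v) :
    u * R + i < v * R + j ↔ u < v := by
  constructor
  · intro h
    rcases lt_trichotomy u v with h1 | h1 | h1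
    · exact h1
    · exact absurd h1 hne
    · have := blk_lt (R := R) hj hi h1
      omega
  · exact blk_lt hi hj

theorem pts_length (RS : List (ℕ × ℕ)) (CL : List ℕ) :
    (pts RS CL).length = RS.length + CL.length := by
  simp [pts]

theorem pts_left (RS : List (ℕ × ℕ)) (CL : List ℕ) (i : ℕ) (h : i < (pts RS CL).length)
    (hi : i < RS.length) : (pts RS CL)[i] =
      (2 * ((RS.getD i (0, 0)).2 + 1) * (RS.length + 1) + i,
      2 * (RS.getD i (0, 0)).1 * (RS.length + 1) + i) := by
  simp only [pts]
  rw [List.getElem_append_left (by simpa using hi), List.getElem_map, List.getElem_range]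

theorem pts_right (RS : List (ℕ × ℕ)) (CL : List ℕ) (i : ℕ) (h : i < (pts RS CL).length)
    (hi : RS.length ≤ i) : (pts RS CL)[i] =
      ((2 * CL.getD (i - RS.length) 0 + 1) * (RS.length + 1) + (i - RS.length),
      (2 * CL.getD (i - RS.length) 0 + 1) * (RS.length + 1) + (i - RS.length)) := by
  simp only [pts]
  rw [List.getElem_append_right (by simpa using hi), List.getElem_map, List.getElem_range]
  simp

theorem nodup_two (N M : ℕ) (f g : ℕ → ℕ) (hf : ∀ i < N, ∀ j < N, f i = f j → i = j)
    (hg : ∀ i < M, ∀ j < M, g i = g j → i = j) (hfg : ∀ i < N, ∀ j < M, f i ≠ g j) :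
    ((List.range N).map f ++ (List.range M).map g).Nodup := by
  rw [List.nodup_append]
  refine ⟨(List.nodup_map_iff_inj_on List.nodup_range).2 ?_,
    (List.nodup_map_iff_inj_on List.nodup_range).2 ?_, ?_⟩
  · intro i hi j hj h
    exact hf i (List.mem_range.1 hi) j (List.mem_range.1 hj) h
  · intro i hi j hj h
    exact hg i (List.mem_range.1 hi) j (List.mem_range.1 hj) h
  · intro a ha b hb
    rw [List.mem_map] at ha hb
    obtain ⟨i, hi, rfl⟩ := ha
    obtain ⟨j, hj, rfl⟩ := hb
    exact hfg i (List.mem_range.1 hi) j (List.mem_range.1 hj)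

theorem blk_inj {R u v i j : ℕ} (hi : i < R) (hj : j < R) (h : u * R + i = v * R + j) :
    u = v ∧ i = j := by
  have huv : u = v := by
    rcases lt_trichotomy u v with h1 | h1 | h1
    · have := blk_lt hi hj h1
      omega
    · exact h1
    · have := blk_lt hj hi h1
      omega
  subst huv
  exact ⟨rfl, by omega⟩

theorem stub_graph : StubGraph := by
  intro RS CL hlen hRS hab hCL
  set N := RS.length with hN
  have hL : (pts RS CL).length = N + N := by rw [pts_length, ← hlen]
  have hml : (mat RS CL).length = N := by rw [mat, List.length_map]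
  have hsq : ∀ r ∈ mat RS CL, r.length = (mat RS CL).length := by
    intro r hr
    rw [mat, List.mem_map] at hr
    obtain ⟨x, _, rfl⟩ := hr
    rw [hml, List.length_map, hlen]
  -- row - row
  have hrr : ∀ i j : Fin (pts RS CL).length, i.val < j.val → j.val < N →
      ¬ (permGraph (pts RS CL)).Adj i j := by
    intro i j hij hj h
    have e1 := pts_left RS CL i.val i.2 (by omega)
    have e2 := pts_left RS CL j.val j.2 (by omega)
    have h' : ((pts RS CL)[i.val].1 < (pts RS CL)[j.val].1 ∧
      (pts RS CL)[j.val].2 < (pts RS CL)[i.val].2) ∨ ((pts RS CL)[j.val].1 < (pts RS CL)[i.val].1 ∧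
      (pts RS CL)[i.val].2 < (pts RS CL)[j.val].2) := h
    rw [e1, e2] at h'
    simp only at h'
    rw [← hN] at h'
    have hp := List.pairwise_iff_getElem.1 hRS i.val j.val (by omega) (by omega) hij
    rw [← List.getD_eq_getElem RS (0, 0), ← List.getD_eq_getElem RS (0, 0)] at hp
    have m1 : 2 * (RS.getD i.val (0, 0)).1 * (N + 1) ≤ 2 * (RS.getD j.val (0, 0)).1 * (N + 1) :=
      Nat.mul_le_mul_right _ (by omega)
    have m2 : 2 * ((RS.getD i.val (0, 0)).2 + 1) * (N + 1) ≤
        2 * ((RS.getD j.val (0, 0)).2 + 1) * (N + 1) :=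
      Nat.mul_le_mul_right _ (by omega)
    omega
  have hrr' : ∀ i j : Fin (pts RS CL).length, i.val < N → j.val < N →
      ¬ (permGraph (pts RS CL)).Adj i j := by
    intro i j hi hj h
    rcases lt_trichotomy i.val j.val with h1 | h1 | h1
    · exact hrr i j h1 hj h
    · exact h.ne (Fin.ext h1)
    · exact hrr j i h1 hi h.symm
  have hcc : ∀ i j : Fin (pts RS CL).length, N ≤ i.val → N ≤ j.val →
      ¬ (permGraph (pts RS CL)).Adj i j := by
    intro i j hi hj h
    have e1 := pts_right RS CL i.val i.2 hi
    have e2 := pts_right RS CL j.val j.2 hj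
    have h' : ((pts RS CL)[i.val].1 < (pts RS CL)[j.val].1 ∧
      (pts RS CL)[j.val].2 < (pts RS CL)[i.val].2) ∨ ((pts RS CL)[j.val].1 < (pts RS CL)[i.val].1 ∧
      (pts RS CL)[i.val].2 < (pts RS CL)[j.val].2) := h
    rw [e1, e2] at h'
    simp only at h'
    omega
  have hrc : ∀ i j : Fin (pts RS CL).length, i.val < N → N ≤ j.val →
      ((permGraph (pts RS CL)).Adj i j ↔ ent (mat RS CL) i.val (j.val - N) = true) := by
    intro i j hi hj
    have hjl := j.2
    have e1 := pts_left RS CL i.val i.2 hi
    have e2 := pts_right RS CL j.val j.2 hj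
    have h' : (permGraph (pts RS CL)).Adj i j ↔ ((pts RS CL)[i.val].1 < (pts RS CL)[j.val].1 ∧
      (pts RS CL)[j.val].2 < (pts RS CL)[i.val].2) ∨ ((pts RS CL)[j.val].1 < (pts RS CL)[i.val].1 ∧
      (pts RS CL)[i.val].2 < (pts RS CL)[j.val].2) := Iff.rfl
    rw [h', e1, e2, ent_mat RS CL _ _ hi (by omega), mem_Icc]
    simp only
    have hab' := hab _ (List.getElem_mem (l := RS) (n := i.val) hi)
    rw [← List.getD_eq_getElem RS (0, 0)] at hab'
    rw [← hN]
    rw [blk_iff (by omega) (by omega) (by omega), blk_iff (by omega) (by omega) (by omega),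
      blk_iff (by omega) (by omega) (by omega), blk_iff (by omega) (by omega) (by omega)]
    omega
  refine ⟨?_, ?_, ?_, ?_⟩
  · rw [pmP]
    exact card_pm_bip _ N hL _ _ hml hsq hrc hcc
  · rw [pts, List.map_append, List.map_map, List.map_map]
    refine nodup_two _ _ _ _ ?_ ?_ ?_
    · intro i hi j hj h
      exact (blk_inj (R := RS.length + 1) (by omega) (by omega) h).2
    · intro i hi j hj h
      exact (blk_inj (R := RS.length + 1) (by omega) (by omega) h).2
    · intro i hi j hj h
      have := (blk_inj (R := RS.length + 1) (by omega) (by omega) h).1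
      omega
  · rw [pts, List.map_append, List.map_map, List.map_map]
    refine nodup_two _ _ _ _ ?_ ?_ ?_
    · intro i hi j hj h
      exact (blk_inj (R := RS.length + 1) (by omega) (by omega) h).2
    · intro i hi j hj h
      exact (blk_inj (R := RS.length + 1) (by omega) (by omega) h).2
    · intro i hi j hj h
      have := (blk_inj (R := RS.length + 1) (by omega) (by omega) h).1
      omega
  · refine ⟨SimpleGraph.Coloring.mk (fun k => if k.val < N then (0 : Fin 2) else 1) ?_⟩
    intro i j hadj
    by_cases hi : i.val < N <;> by_cases hj : j.val < N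
    · exact absurd hadj (hrr' i j hi hj)
    · simp [hi, hj]
    · simp [hi, hj]
    · exact absurd hadj (hcc i j (by omega) (by omega))

end Pool.Agent.H570R2.Mono
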