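import Pool.Agent.H570R2.Mono.Stubs

/-!
# Task L: the permanent of the matrix of a program
-/

open Finset MvPolynomial

namespace Pool.Agent.H570R2.Mono

open Pool.Agent.H549R2.Convex (F mat F_mat)

section Lists

theorem L_cls_ge (M : ℕ) : ∀ (p : List Ins) (s : ℕ × ℕ), ∀ κ ∈ cls M p s, s.2 ≤ κ := by
  intro p
  induction p with
  | nil => intro s κ h; simp [cls] at h
  | cons i p ih =>
    intro s κ h
    rw [cls, List.mem_append] at h
    rcases h with h | h
    · unfold colsAt at h
      split_ifs at h with h1 h2
      · simp at h
      · simp only [List.mem_singleton] at h; omega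
      · rw [List.mem_replicate] at h; omega
    · have h1 := ih _ _ h
      have h2 : s.2 ≤ (step s i).2 := by unfold step; split_ifs <;> simp
      omega

theorem L_cls_lt (M : ℕ) : ∀ (p : List Ins) (s : ℕ × ℕ), ∀ κ ∈ cls M p s,
    κ < s.2 + p.length := by
  intro p
  induction p with
  | nil => intro s κ h; simp [cls] at h
  | cons i p ih =>
    intro s κ h
    rw [cls, List.mem_append] at h
    rw [List.length_cons]
    rcases h with h | h
    · unfold colsAt at h
      split_ifs at h with h1 h2
      · simp at h
      · simp only [List.mem_singleton] at h; omega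
      · rw [List.mem_replicate] at h; omega
    · have h1 := ih _ _ h
      have h2 : (step s i).2 ≤ s.2 + 1 := by unfold step; split_ifs <;> simp
      omega

theorem L_rws_ge (M : ℕ) : ∀ (p : List Ins) (s : ℕ × ℕ), s.1 ≤ s.2 → ∀ r ∈ rws M p s,
    s.1 ≤ r.1 := by
  intro p
  induction p with
  | nil => intro s _ r h; simp [rws] at h
  | cons i p ih =>
    intro s hs r h
    rw [rws, List.mem_append] at h
    rcases h with h | h
    · unfold rowsAt at h
      split_ifs at h with h1 h2
      · simp at h
      · simp only [List.mem_singleton] at h; rw [h]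
      · rw [List.mem_replicate] at h; rw [h.2]
    · have h2 : s.1 ≤ (step s i).1 ∧ (step s i).1 ≤ (step s i).2 := by
        unfold step; split_ifs <;> simp <;> omega
      have h1 := ih _ h2.2 _ h
      omega

theorem L_lengths (M : ℕ) : ∀ (p : List Ins) (s : ℕ × ℕ),
    (rws M p s).length + reals p = (cls M p s).length + reads p := by
  intro p
  induction p with
  | nil => intro s; simp [rws, cls, reals, reads]
  | cons i p ih =>
    intro s
    have h := ih (step s i)
    rw [rws, cls, reals, reads, List.length_append, List.length_append]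
    unfold rowsAt colsAt
    by_cases h0 : i.1 = 0
    · simp [h0]; omega
    by_cases h1 : i.1 = 1
    · simp [h1]; omega
    by_cases h2 : i.1 = 2
    · simp [h2]; omega
    · have h3 : ¬ i.1 ≤ 1 := by omega
      have h4 : ¬ (i.1 = 0 ∨ i.1 = 2) := by omega
      rw [if_neg h3, if_neg h2, if_neg h4, if_neg h1, if_neg h1, if_neg h2,
        List.length_replicate, List.length_replicate]
      omega

end Lists

section Phi
variable {A : Type} [CommRing A]

/-- product of the row forms -/
noncomputable def L_W (val : ℕ → MvPolynomial ℕ A) (l : List (ℕ × ℕ)) : MvPolynomial ℕ A :=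
  (l.map (fun r => ∑ k ∈ Icc r.1 r.2, val k)).prod

theorem L_W_append (val : ℕ → MvPolynomial ℕ A) (l l' : List (ℕ × ℕ)) :
    L_W val (l ++ l') = L_W val l * L_W val l' := by
  simp [L_W]

theorem L_W_congr (val val' : ℕ → MvPolynomial ℕ A) (l : List (ℕ × ℕ)) (h : ℕ)
    (hl : ∀ r ∈ l, h ≤ r.1) (hv : ∀ k, h ≤ k → val k = val' k) : L_W val l = L_W val' l := by
  unfold L_W
  congr 1
  refine List.map_congr_left fun r hr => ?_
  refine Finset.sum_congr rfl fun k hk => ?_
  rw [mem_Icc] at hk
  exact hv k ((hl r hr).trans hk.1)

/-- specialisation of the variable `t` to the polynomial variable -/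
noncomputable def L_phi (A : Type) [CommRing A] (t : ℕ) :
    MvPolynomial ℕ A →+* MvPolynomial ℕ (Polynomial A) :=
  eval₂Hom ((MvPolynomial.C).comp Polynomial.C)
    (fun k => if k = t then MvPolynomial.C Polynomial.X else X k)

theorem L_phi_monomial (t : ℕ) (s : ℕ →₀ ℕ) (a : A) :
    L_phi A t (monomial s a) = monomial (s.erase t) (Polynomial.C a * Polynomial.X ^ (s t)) := by
  unfold L_phi
  rw [eval₂Hom_monomial, ← Finsupp.mul_prod_erase' s t _ (by intro i; simp)]
  rw [if_pos rfl]
  have h1 : ((s.erase t).prod fun i k =>
      (if i = t then (MvPolynomial.C Polynomial.X : MvPolynomial ℕ (Polynomial A)) else X i) ^ k)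
      = monomial (s.erase t) 1 := by
    rw [monic_monomial_eq]
    refine Finsupp.prod_congr fun i hi => ?_
    have : i ≠ t := by
      rintro rfl
      simp at hi
    rw [if_neg this]
  rw [h1, RingHom.comp_apply, ← mul_assoc, ← map_pow, ← map_mul, C_mul_monomial, mul_one]

theorem L_coeff_phi (t : ℕ) (m : ℕ →₀ ℕ) (hm : m t = 0) (j : ℕ) (R : MvPolynomial ℕ A) :
    coeff (m + Finsupp.single t j) R = (coeff m (L_phi A t R)).coeff j := by
  classical
  induction R using MvPolynomial.induction_on' with
  | monomial s a =>
    rw [L_phi_monomial, coeff_monomial, coeff_monomial]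
    by_cases h : s.erase t = m
    · rw [if_pos h, Polynomial.coeff_C_mul, Polynomial.coeff_X_pow]
      by_cases hj : j = s t
      · have : s = m + Finsupp.single t j := by
          rw [← h, hj, Finsupp.erase_add_single]
        rw [if_pos this, if_pos hj, mul_one]
      · have : s ≠ m + Finsupp.single t j := by
          intro hs
          apply hj
          rw [hs, Finsupp.add_apply, hm, Finsupp.single_eq_same, zero_add]
        rw [if_neg this, if_neg hj, mul_zero]
    · have : s ≠ m + Finsupp.single t j := by
        intro hs
        apply h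
        rw [hs]
        ext i
        by_cases hi : i = t
        · subst hi; simp [hm]
        · rw [Finsupp.erase_ne hi, Finsupp.add_apply, Finsupp.single_eq_of_ne hi, add_zero]
      rw [if_neg this, if_neg h, Polynomial.coeff_zero]
  | add p q hp hq =>
    rw [coeff_add, map_add, coeff_add, Polynomial.coeff_add, hp, hq]

/-- the values of the keys -/
noncomputable def L_val (q : List A) (h t : ℕ) (k : ℕ) : MvPolynomial ℕ A :=
  if k < t then MvPolynomial.C (q.getD (k - h) 0) else X k

theorem L_phi_val (q : List A) (h t : ℕ) (ht : h ≤ t) (hq : q.length = t - h) (k : ℕ)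
    (hk : h ≤ k) : L_phi A t (L_val q h t k) = L_val (ext q) h (t + 1) k := by
  unfold L_val ext
  by_cases h1 : k < t
  · rw [if_pos h1, if_pos (by omega)]
    have h2 : k - h < q.length := by omega
    rw [L_phi, coe_eval₂Hom, eval₂_C, RingHom.comp_apply, List.getD_append _ _ _ _ (by simpa using h2),
      List.getD_eq_getElem _ _ h2, List.getD_eq_getElem _ _ (by simpa using h2), List.getElem_map]
  · rw [if_neg h1]
    by_cases h2 : k = t
    · subst h2
      rw [if_pos (by omega), L_phi, coe_eval₂Hom, eval₂_X, if_pos rfl,
        List.getD_append_right _ _ _ _ (by simp; omega)]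
      simp [hq]
    · rw [if_neg (by omega), L_phi, coe_eval₂Hom, eval₂_X, if_neg h2]

theorem L_phi_W (q : List A) (h t : ℕ) (ht : h ≤ t) (hq : q.length = t - h)
    (l : List (ℕ × ℕ)) (hl : ∀ r ∈ l, h ≤ r.1) :
    L_phi A t (L_W (L_val q h t) l) = L_W (L_val (ext q) h (t + 1)) l := by
  unfold L_W
  rw [map_list_prod, List.map_map]
  congr 1
  refine List.map_congr_left fun r hr => ?_
  rw [Function.comp_apply, map_sum]
  refine Finset.sum_congr rfl fun k hk => ?_
  rw [mem_Icc] at hk
  exact L_phi_val q h t ht hq k ((hl r hr).trans hk.1)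

theorem L_sum_getD (q : List A) (h t : ℕ) (h1 : 1 ≤ h) (ht : h ≤ t) (hq : q.length = t - h) :
    ∑ k ∈ Icc h (t - 1), (MvPolynomial.C (q.getD (k - h) 0) : MvPolynomial ℕ A)
      = MvPolynomial.C q.sum := by
  rw [← map_sum]
  congr 1
  have e1 : Icc h (t - 1) = (range q.length).image (fun i => h + i) := by
    ext k
    simp only [mem_Icc, mem_image, mem_range]
    constructor
    · intro hk; exact ⟨k - h, by omega, by omega⟩
    · rintro ⟨i, hi, rfl⟩; omega
  rw [e1, Finset.sum_image (fun a _ b _ hab => by simpa using hab)]
  have e2 : ∀ i ∈ range q.length, q.getD (h + i - h) 0 = q.getD i 0 := by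
    intro i _; rw [Nat.add_sub_cancel_left]
  rw [Finset.sum_congr rfl e2]
  clear e1 e2 hq
  induction q with
  | nil => simp
  | cons a q ih =>
    rw [List.length_cons, Finset.sum_range_succ', List.sum_cons, ← ih, add_comm]
    simp

theorem L_pf (N : ℕ) (D : A) (G : Polynomial A) :
    ((Polynomial.C D + Polynomial.X) ^ N * G).coeff N = pf (N : ℤ) D G := by
  unfold pf
  rw [add_comm, Polynomial.coeff_mul, Finset.Nat.sum_antidiagonal_eq_sum_range_succ_mk,
    Nat.succ_eq_add_one]
  simp only [Polynomial.coeff_X_add_C_pow]
  rw [← Finset.sum_range_reflect]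
  rw [Polynomial.sum_eq_of_subset (s := G.support ∪ range (N + 1)) _ (by simp)
    Finset.subset_union_left]
  rw [← Finset.sum_subset (Finset.subset_union_right (s₁ := G.support) (s₂ := range (N + 1)))]
  · refine Finset.sum_congr rfl fun j hj => ?_
    rw [mem_range] at hj
    have e1 : N - (N + 1 - 1 - j) = j := by omega
    have e2 : N.choose (N + 1 - 1 - j) = N.choose j := by
      rw [Nat.add_sub_cancel]; exact Nat.choose_symm (by omega)
    rw [e1, e2, Ring.choose_natCast]
    push_cast
    ring
  · intro j _ hj
    rw [mem_range, not_lt] at hj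
    rw [Ring.choose_natCast, Nat.choose_eq_zero_of_lt (by omega)]
    simp

end Phi

theorem L_sum_single_apply (l : List ℕ) (t : ℕ) (h : ∀ κ ∈ l, t < κ) :
    (l.map (fun κ => (Finsupp.single κ 1 : ℕ →₀ ℕ))).sum t = 0 := by
  induction l with
  | nil => simp
  | cons a l ih =>
    rw [List.map_cons, List.sum_cons, Finsupp.add_apply, ih (fun κ hκ => h κ (List.mem_cons_of_mem _ hκ)),
      Finsupp.single_eq_of_ne (by have := h a List.mem_cons_self; omega)]

theorem L_key (M : ℕ) : ∀ (p : List Ins) (A : Type) [CommRing A] (q : List A) (h t : ℕ),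
    1 ≤ h → h ≤ t → q.length = t - h →
    coeff ((cls M p (h, t)).map (fun κ => (Finsupp.single κ 1 : ℕ →₀ ℕ))).sum
      (L_W (L_val q h t) (rws M p (h, t))) = V (M : ℤ) p A q := by
  intro p
  induction p with
  | nil =>
    intro A _ q h t _ _ _
    simp [cls, rws, L_W, V]
  | cons i p ih =>
    intro A _ q h t h1 ht hq
    obtain ⟨k, a, b⟩ := i
    rw [rws, cls, List.map_append, List.sum_append, L_W_append]
    match k with
    | 0 =>
      have e1 : rowsAt M (0, a, b) (h, t) = [] := by simp [rowsAt]
      have e2 : colsAt M (0, a, b) (h, t) = [] := by simp [colsAt]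
      have e3 : step (h, t) (0, a, b) = (min (h + 1) t, t) := by simp [step]
      rw [e1, e2, e3]
      have h2 : min (h + 1) t ≤ t := min_le_right _ _
      have h3 : q.tail.length = t - min (h + 1) t := by
        rw [List.length_tail, hq]; omega
      have IH := ih A q.tail (min (h + 1) t) t (by omega) h2 h3
      have e4 : L_W (L_val q h t) (rws M p (min (h + 1) t, t))
          = L_W (L_val q.tail (min (h + 1) t) t) (rws M p (min (h + 1) t, t)) := by
        refine L_W_congr _ _ _ (min (h + 1) t) (L_rws_ge M p _ h2) ?_
        intro k hk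
        unfold L_val
        by_cases hkt : k < t
        · rw [if_pos hkt, if_pos hkt]
          have e5 : k - h = (k - min (h + 1) t) + 1 := by omega
          rw [e5]
          congr 1
          cases q with
          | nil => simp
          | cons x q => simp
        · rw [if_neg hkt, if_neg hkt]
      rw [e4]
      simp only [L_W, List.map_nil, List.sum_nil, List.prod_nil, zero_add, one_mul] at IH ⊢
      rw [IH]
      rfl
    | 1 =>
      have e1 : rowsAt M (1, a, b) (h, t) = [] := by simp [rowsAt]
      have e2 : colsAt M (1, a, b) (h, t) = [t] := by simp [colsAt]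
      have e3 : step (h, t) (1, a, b) = (h, t + 1) := by simp [step]
      rw [e1, e2, e3]
      have h2 : h ≤ t + 1 := by omega
      have h3 : (ext q).length = t + 1 - h := by simp [ext, hq]; omega
      have IH := ih (Polynomial A) (ext q) h (t + 1) h1 h2 h3
      have h4 := L_sum_single_apply (cls M p (h, t + 1)) t (fun κ hκ => by
        have := L_cls_ge M p (h, t + 1) κ hκ
        simp only at this; omega)
      have h5 := L_coeff_phi t _ h4 1 (L_W (L_val q h t) (rws M p (h, t + 1)))
      rw [L_phi_W q h t ht hq _ (L_rws_ge M p _ h2), IH] at h5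
      simp only [L_W, List.map_nil, List.prod_nil, one_mul, List.map_cons, List.sum_cons,
        List.sum_nil, add_zero] at h5 ⊢
      rw [add_comm, h5]
      rfl
    | 2 =>
      have e1 : rowsAt M (2, a, b) (h, t) = [(h, t - 1)] := by simp [rowsAt]
      have e2 : colsAt M (2, a, b) (h, t) = [] := by simp [colsAt]
      have e3 : step (h, t) (2, a, b) = (h, t) := by simp [step]
      rw [e1, e2, e3]
      have IH := ih A q h t h1 ht hq
      have e4 : L_W (L_val q h t) [(h, t - 1)] = MvPolynomial.C q.sum := by
        rw [← L_sum_getD q h t h1 ht hq]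
        simp only [L_W, List.map_cons, List.map_nil, List.prod_singleton]
        refine Finset.sum_congr rfl fun k hk => ?_
        rw [mem_Icc] at hk
        unfold L_val
        rw [if_pos (by omega)]
      rw [e4, List.map_nil, List.sum_nil, zero_add, coeff_C_mul, IH]
      rfl
    | n + 3 =>
      have e1 : rowsAt M (n + 3, a, b) (h, t) = List.replicate (a * M + b) (h, t) := by
        simp [rowsAt]
      have e2 : colsAt M (n + 3, a, b) (h, t) = List.replicate (a * M + b) t := by
        simp [colsAt]
      have e3 : step (h, t) (n + 3, a, b) = (h, t + 1) := by simp [step]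
      rw [e1, e2, e3]
      have h2 : h ≤ t + 1 := by omega
      have h3 : (ext q).length = t + 1 - h := by simp [ext, hq]; omega
      have IH := ih (Polynomial A) (ext q) h (t + 1) h1 h2 h3
      have h4 := L_sum_single_apply (cls M p (h, t + 1)) t (fun κ hκ => by
        have := L_cls_ge M p (h, t + 1) κ hκ
        simp only at this; omega)
      have e4 : L_W (L_val q h t) (List.replicate (a * M + b) (h, t))
          = (MvPolynomial.C q.sum + X t) ^ (a * M + b) := by
        simp only [L_W, List.map_replicate, List.prod_replicate]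
        congr 1
        have e5 : Icc h t = insert t (Icc h (t - 1)) := by
          ext k; simp only [mem_Icc, mem_insert]; omega
        rw [e5, Finset.sum_insert (by simp only [mem_Icc]; omega), add_comm]
        congr 1
        · rw [← L_sum_getD q h t h1 ht hq]
          refine Finset.sum_congr rfl fun k hk => ?_
          rw [mem_Icc] at hk
          unfold L_val
          rw [if_pos (by omega)]
        · unfold L_val
          rw [if_neg (by omega)]
      have e6 : ((List.replicate (a * M + b) t).map
          (fun κ => (Finsupp.single κ 1 : ℕ →₀ ℕ))).sum = Finsupp.single t (a * M + b) := by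
        rw [List.map_replicate, List.sum_replicate, Finsupp.smul_single, smul_eq_mul, mul_one]
      have h5 := L_coeff_phi t _ h4 (a * M + b)
        ((MvPolynomial.C q.sum + X t) ^ (a * M + b) * L_W (L_val q h t) (rws M p (h, t + 1)))
      rw [map_mul, L_phi_W q h t ht hq _ (L_rws_ge M p _ h2)] at h5
      have e7 : L_phi A t ((MvPolynomial.C q.sum + X t) ^ (a * M + b))
          = MvPolynomial.C ((Polynomial.C q.sum + Polynomial.X) ^ (a * M + b)) := by
        rw [map_pow, map_add, L_phi, coe_eval₂Hom, eval₂_C, eval₂_X, if_pos rfl,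
          RingHom.comp_apply, ← map_add, ← map_pow]
      rw [e7, coeff_C_mul, IH, L_pf] at h5
      rw [e4, e6, add_comm, h5]
      rw [V]
      push_cast
      rfl

/-- TASK L -/
theorem stub_link : StubLink := by
  intro p M hp
  have hlen : (rws M p (1, 1)).length = (cls M p (1, 1)).length := by
    have := L_lengths M p (1, 1); omega
  rw [matP, F_mat _ _ hlen]
  have h1 : ((rws M p (1, 1)).map Pool.Agent.H549R2.Convex.rowP).prod
      = L_W (L_val ([] : List ℤ) 1 1) (rws M p (1, 1)) := by
    unfold L_W
    congr 1
    refine List.map_congr_left fun r hr => ?_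
    unfold Pool.Agent.H549R2.Convex.rowP
    refine Finset.sum_congr rfl fun k hk => ?_
    rw [mem_Icc] at hk
    have := L_rws_ge M p (1, 1) le_rfl r hr
    unfold L_val
    rw [if_neg (by simp only at this; omega)]
  rw [h1, L_key M p ℤ [] 1 1 le_rfl le_rfl rfl]
  congr 1
  unfold facP
  have h2 : ∀ n : ℕ, (((List.range n).map
      (fun κ => ((cls M p (1, 1)).count κ).factorial)).prod : ℕ)
      = ∏ κ ∈ range n, ((cls M p (1, 1)).count κ).factorial := by
    intro n
    induction n with
    | zero => simp
    | succ n ih => rw [List.range_succ, List.map_append, List.prod_append, ih,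
        Finset.prod_range_succ]; simp
  rw [h2, Nat.cast_prod]
  refine Finset.prod_subset ?_ ?_
  · intro κ hκ
    rw [List.mem_toFinset] at hκ
    have := L_cls_lt M p (1, 1) κ hκ
    simp only at this
    rw [mem_range]; omega
  · intro κ _ hκ
    rw [List.mem_toFinset] at hκ
    rw [List.count_eq_zero_of_not_mem hκ]
    simp

end Pool.Agent.H570R2.Mono
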