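import Pool.Agent.H570R2.Mono.Defs

/-!
# The functional of a portal, and naturality of the value
-/

namespace Pool.Agent.H570R2.Mono

open Pool.Agent.H549R2.Convex

section Pf

variable {A B : Type} [CommRing A] [CommRing B]

theorem choose_neg_one (k : ℕ) : Ring.choose (-1 : ℤ) k = (-1) ^ k := by
  rw [Ring.choose_neg', Ring.multichoose_one]
  simp [Int.negOnePow_def, Units.smul_def]

theorem choose_neg_two (k : ℕ) : Ring.choose (-2 : ℤ) k = (-1) ^ k * (k + 1) := by
  rw [Ring.choose_neg', Ring.multichoose_two]
  simp [Int.negOnePow_def, Units.smul_def]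
  ring

theorem pf_add (N : ℤ) (D : A) (G H : Polynomial A) : pf N D (G + H) = pf N D G + pf N D H := by
  unfold pf
  rw [Polynomial.sum_add_index]
  · intro i
    simp
  · intro i a b
    ring

theorem pf_monomial (N : ℤ) (D : A) (k : ℕ) (c : A) :
    pf N D (Polynomial.monomial k c) = ((Ring.choose N k : ℤ) : A) * D ^ k * c := by
  unfold pf
  rw [Polynomial.sum_monomial_index]
  simp

theorem pf_map (f : A →+* B) (N : ℤ) (D : A) (G : Polynomial A) :
    f (pf N D G) = pf N (f D) (G.map f) := by
  induction G using Polynomial.induction_on' with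
  | add p q hp hq => rw [pf_add, map_add, hp, hq, Polynomial.map_add, pf_add]
  | monomial n a =>
    rw [pf_monomial, Polynomial.map_monomial, pf_monomial]
    simp

theorem pf_neg_one (D : A) (G : Polynomial A) : pf (-1) D G = G.eval (-D) := by
  induction G using Polynomial.induction_on' with
  | add p q hp hq => rw [pf_add, hp, hq, Polynomial.eval_add]
  | monomial n a =>
    rw [pf_monomial, choose_neg_one, Polynomial.eval_monomial]
    push_cast
    rw [neg_pow D]
    ring

theorem pf_neg_two (D : A) (G : Polynomial A) :
    pf (-2) D G = G.eval (-D) - D * G.derivative.eval (-D) := by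
  induction G using Polynomial.induction_on' with
  | add p q hp hq =>
    rw [pf_add, hp, hq, Polynomial.eval_add, Polynomial.derivative_add, Polynomial.eval_add]
    ring
  | monomial n a =>
    rw [pf_monomial, choose_neg_two, Polynomial.eval_monomial, Polynomial.derivative_monomial,
      Polynomial.eval_monomial]
    push_cast
    cases n with
    | zero => simp
    | succ n =>
      rw [Nat.add_sub_cancel, neg_pow D (n + 1), neg_pow D n]
      push_cast
      ring

theorem pf_one (D : A) (G : Polynomial A) : pf 1 D G = G.coeff 0 + D * G.coeff 1 := by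
  induction G using Polynomial.induction_on' with
  | add p q hp hq =>
    rw [pf_add, hp, hq, Polynomial.coeff_add, Polynomial.coeff_add]
    ring
  | monomial n a =>
    rw [pf_monomial, Polynomial.coeff_monomial, Polynomial.coeff_monomial]
    have h : (1 : ℤ) = ((1 : ℕ) : ℤ) := rfl
    rw [h, Ring.choose_natCast]
    rcases n with _ | _ | n
    · simp
    · simp
    · rw [Nat.choose_eq_zero_of_lt (by omega)]
      simp

theorem pf_sq (N : ℤ) (D : A) (hD : D ^ 2 = 0) (G : Polynomial A) :
    pf N D G = G.eval ((N : A) * D) := by
  induction G using Polynomial.induction_on' with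
  | add p q hp hq => rw [pf_add, hp, hq, Polynomial.eval_add]
  | monomial n a =>
    rw [pf_monomial, Polynomial.eval_monomial]
    rcases n with _ | _ | n
    · simp
    · simp
      ring
    · have h1 : D ^ (n + 1 + 1) = 0 := by
        rw [show n + 1 + 1 = 2 + n by ring, pow_add, hD, zero_mul]
      rw [mul_pow, h1]
      ring

end Pf

section Natural

variable {A B : Type} [CommRing A] [CommRing B]

theorem ext_map (f : A →+* B) (q : List A) : ext (q.map f) = (ext q).map (Polynomial.mapRingHom f) := by
  simp [ext, List.map_append, List.map_map, Function.comp_def]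

theorem V_nil (M : ℤ) (q : List A) : V M [] A q = 1 := rfl

theorem V_deq (M : ℤ) (x : ℕ × ℕ) (p : List Ins) (q : List A) :
    V M ((0, x) :: p) A q = V M p A q.tail := rfl

theorem V_real (M : ℤ) (x : ℕ × ℕ) (p : List Ins) (q : List A) :
    V M ((1, x) :: p) A q = (V M p (Polynomial A) (ext q)).coeff 1 := rfl

theorem V_read (M : ℤ) (x : ℕ × ℕ) (p : List Ins) (q : List A) :
    V M ((2, x) :: p) A q = q.sum * V M p A q := rfl

theorem V_por' (M : ℤ) (k a b : ℕ) (p : List Ins) (q : List A) :
    V M ((k + 3, a, b) :: p) A q = pf (a * M + b) q.sum (V M p (Polynomial A) (ext q)) := rfl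

theorem V_por (M : ℤ) (a b : ℕ) (p : List Ins) (q : List A) :
    V M (por a b :: p) A q = pf (a * M + b) q.sum (V M p (Polynomial A) (ext q)) := rfl

/-- **Naturality of the value.** -/
theorem V_map (M : ℤ) : ∀ (p : List Ins) (A B : Type) [CommRing A] [CommRing B] (f : A →+* B)
    (q : List A), f (V M p A q) = V M p B (q.map f)
  | [], A, B, _, _, f, q => by rw [V_nil, V_nil, map_one]
  | (0, x, y) :: p, A, B, _, _, f, q => by
    rw [V_deq, V_deq, V_map M p A B f, List.map_tail]
  | (1, x, y) :: p, A, B, _, _, f, q => by
    rw [V_real, V_real, ext_map, ← V_map M p (Polynomial A) (Polynomial B) (Polynomial.mapRingHom f),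
      Polynomial.coe_mapRingHom, Polynomial.coeff_map]
  | (2, x, y) :: p, A, B, _, _, f, q => by
    rw [V_read, V_read, map_mul, map_list_sum, V_map M p A B f]
  | (k + 3, a, b) :: p, A, B, _, _, f, q => by
    rw [V_por', V_por', ext_map, ← V_map M p (Polynomial A) (Polynomial B) (Polynomial.mapRingHom f),
      pf_map, map_list_sum, Polynomial.coe_mapRingHom]

end Natural

end Pool.Agent.H570R2.Mono
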