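import Pool.Agent.H570R2.Mono.Alg4
import Mathlib.Algebra.DualNumber

/-!
# The value of a row
-/

namespace Pool.Agent.H570R2.Mono

open Pool.Agent.H549R2.Convex

section Dual

variable {A B : Type} [CommRing A] [CommRing B]

/-- constants in the dual numbers -/
noncomputable abbrev inl' (A : Type) [CommRing A] : A →+* DualNumber A := TrivSqZeroExt.inlHom A A

/-- `X ↦ ε` -/
noncomputable def theta (A : Type) [CommRing A] : Polynomial A →+* DualNumber A :=
  Polynomial.eval₂RingHom (inl' A) DualNumber.eps

theorem theta_C (a : A) : theta A (Polynomial.C a) = inl' A a := by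
  simp [theta]

theorem theta_X : theta A Polynomial.X = DualNumber.eps := by
  simp [theta]

theorem eps_sq : (DualNumber.eps : DualNumber A) ^ 2 = 0 := by
  rw [sq, DualNumber.eps_mul_eps]

theorem coeff_one_eq (G : Polynomial A) : G.coeff 1 = (theta A G).snd := by
  induction G using Polynomial.induction_on' with
  | add p q hp hq => rw [Polynomial.coeff_add, map_add, TrivSqZeroExt.snd_add, hp, hq]
  | monomial n a =>
    rw [theta, Polynomial.coe_eval₂RingHom, Polynomial.eval₂_monomial, Polynomial.coeff_monomial]
    rcases n with _ | _ | n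
    · simp
    · simp
    · have h : (DualNumber.eps : DualNumber A) ^ (n + 1 + 1) = 0 := by
        rw [show n + 1 + 1 = 2 + n by ring, pow_add, eps_sq, zero_mul]
      rw [h]
      simp

theorem theta_ext (q : List A) : (ext q).map (theta A) = q.map (inl' A) ++ [DualNumber.eps] := by
  simp only [ext, List.map_append, List.map_map, List.map_cons, List.map_nil, theta_X]
  congr 1
  apply List.map_congr_left
  intro a _
  exact theta_C a

/-- a new column over the dual numbers -/
theorem V_real_dual (M : ℤ) (p : List Ins) (q : List A) :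
    V M (real :: p) A q = (V M p (DualNumber A) (q.map (inl' A) ++ [DualNumber.eps])).snd := by
  rw [V_real, coeff_one_eq, V_map, theta_ext]

theorem sum_inl (q : List A) : (q.map (inl' A)).sum = inl' A q.sum := (map_list_sum _ _).symm

end Dual

section Row

variable {A : Type} [CommRing A]

/-- the token block -/
theorem V_tok {n : ℕ} (β : Bool) (p : List Ins) (x c : A) (R : List A) (hR : R.length = n)
    (h0 : c + R.sum = 0) :
    V (-1) (tok β ++ rots (n + 1) ++ p) A ((4 * x) :: (2 * c) :: (-4 * x) :: (-2 * c) :: c :: R) =
      ((DualNumber.eps - inl' A (4 * x + bif β then 2 * c else 0)) *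
        V (-1) p (DualNumber A) (DualNumber.eps :: -DualNumber.eps :: inl' A c ::
          R.map (inl' A))).snd := by
  have hrot : V (-1) (rst :: (rots (n + 1) ++ p)) (DualNumber A)
      (inl' A c :: (R.map (inl' A) ++ [DualNumber.eps])) =
      V (-1) p (DualNumber A) (DualNumber.eps :: -DualNumber.eps :: inl' A c :: R.map (inl' A)) := by
    have hs : inl' A c + (R.map (inl' A)).sum = 0 := by
      rw [sum_inl, ← map_add, h0, map_zero]
    rw [V_rst]
    have e1 : -(inl' A c :: (R.map (inl' A) ++ [DualNumber.eps])).sum = -DualNumber.eps := by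
      simp only [List.sum_cons, List.sum_append, List.sum_nil, neg_inj]
      linear_combination hs
    rw [e1]
    have e2 : inl' A c :: (R.map (inl' A) ++ [DualNumber.eps]) ++ [-DualNumber.eps] =
        (inl' A c :: R.map (inl' A)) ++ [DualNumber.eps, -DualNumber.eps] := by simp
    rw [e2, (step_rots (k := n + 1) (inl' A c :: R.map (inl' A))
      [DualNumber.eps, -DualNumber.eps] (by simp [hR])).2 _ (by
        simp only [List.sum_cons, List.sum_append, List.sum_nil]
        linear_combination hs)]
    rfl
  cases β with
  | false =>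
    have e : tok false ++ rots (n + 1) ++ p =
        deq :: real :: read :: deq :: deq :: deq :: rst :: (rots (n + 1) ++ p) := by
      simp [tok]
    rw [e, V_deq, List.tail_cons, V_real_dual, V_read]
    simp only [List.map_cons, List.cons_append]
    rw [V_deq, List.tail_cons, V_deq, List.tail_cons, V_deq, List.tail_cons, hrot]
    congr 2
    simp only [List.sum_cons, List.sum_append, List.sum_nil, sum_inl, cond_false, add_zero,
      map_mul, map_neg]
    have hs : inl' A c + inl' A R.sum = 0 := by
      rw [← map_add, h0, map_zero]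
    linear_combination hs
  | true =>
    have e : tok true ++ rots (n + 1) ++ p =
        deq :: real :: deq :: read :: deq :: deq :: rst :: (rots (n + 1) ++ p) := by
      simp [tok]
    rw [e, V_deq, List.tail_cons, V_real_dual]
    simp only [List.map_cons, List.cons_append]
    rw [V_deq, List.tail_cons, V_read, V_deq, List.tail_cons, V_deq, List.tail_cons, hrot]
    congr 2
    simp only [List.sum_cons, List.sum_append, List.sum_nil, sum_inl, cond_true,
      map_mul, map_neg, map_add]
    have hs : inl' A c + inl' A R.sum = 0 := by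
      rw [← map_add, h0, map_zero]
    linear_combination hs

theorem inl_sq {c : A} (hc : c ^ 2 = 0) : (inl' A c) ^ 2 = 0 := by
  rw [← map_pow, hc, map_zero]

/-- one cell -/
theorem V_cell {n : ℕ} (β : Bool) (p : List Ins) (x c : A) (R : List A) (hR : R.length = n)
    (hx : x ^ 2 = 0) (hc : c ^ 2 = 0) (h0 : c + R.sum = 0) :
    V (-1) (cell n β ++ p) A (x :: -x :: c :: R) =
      ((DualNumber.eps - inl' A (4 * x + bif β then 2 * c else 0)) *
        V (-1) p (DualNumber A) ((4 * DualNumber.eps) :: (-(4 * DualNumber.eps)) ::
          (R ++ [c]).map (inl' A))).snd := by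
  have e : cell n β ++ p = (at' 2 n (spl 2 0) ++ at' 3 n (spl 2 0) ++ adv 1 (n + 2) ++
      at' 0 (n + 4) (mrg 2)) ++ (tok β ++ rots (n + 1) ++ ((adv 1 n ++ at' 0 (n + 3) (spl 6 0) ++
      at' 1 (n + 2) (mrg 2) ++ at' 2 (n + 1) (spl 0 1) ++ fxb 0 (n + 1) ++ rots 1) ++ p)) := by
    simp only [cell, List.append_assoc]
  rw [e, (step_cell1 x c R hR hx hc).2 _ (by
    simp only [List.sum_cons]
    linear_combination h0), V_tok β _ x c R hR h0,
    (step_cell2 DualNumber.eps (inl' A c) (R.map (inl' A)) (by simp [hR]) eps_sq (inl_sq hc)).2 _ (by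
      simp only [List.sum_cons, sum_inl]
      have hs : inl' A c + inl' A R.sum = 0 := by
        rw [← map_add, h0, map_zero]
      linear_combination hs)]
  simp only [List.map_append, List.map_cons, List.map_nil]

/-- the linear form of a row -/
def al {A : Type} [CommRing A] : List Bool → List A → A
  | b :: r, c :: cs => al r cs + (bif b then 8 * (-16) ^ r.length * c else 0)
  | _, _ => 0

theorem al_map {B : Type} [CommRing B] (f : A →+* B) : ∀ (r : List Bool) (cs : List A),
    al r (cs.map f) = f (al r cs)
  | [], cs => by simp [al]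
  | b :: r, [] => by simp [al]
  | b :: r, c :: cs => by
    rw [List.map_cons, al, al, al_map f r cs, map_add]
    cases b
    · simp
    · simp only [cond_true, map_mul, map_pow, map_neg, map_ofNat]

theorem V_inl (p : List Ins) (q : List A) :
    V (-1) p (DualNumber A) (q.map (inl' A)) = inl' A (V (-1) p A q) := (V_map _ _ _ _ _ _).symm

/-- the cells of a row -/
theorem V_cells (n : ℕ) (p : List Ins) : ∀ (r : List Bool) (A : Type) [CommRing A] (x : A)
    (cs S : List A), x ^ 2 = 0 → (∀ c ∈ cs, c ^ 2 = 0) → cs.length = r.length →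
    (cs ++ S).length = n + 1 → (cs ++ S).sum = 0 →
    V (-1) (r.flatMap (cell n) ++ ([deq, read, deq] ++ p)) A (x :: -x :: (cs ++ S)) =
      (al r cs - (-16) ^ r.length * x) * V (-1) p A (S ++ cs)
  | [], A, _, x, cs, S, hx, hcs, hl, hn, h0 => by
    have : cs = [] := List.length_eq_zero_iff.1 hl
    subst this
    simp only [List.flatMap_nil, List.nil_append, List.cons_append, List.append_nil] at *
    rw [V_deq, List.tail_cons, V_read, V_deq, List.tail_cons, List.sum_cons, h0]
    simp [al]
  | b :: r, A, _, x, cs, S, hx, hcs, hl, hn, h0 => by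
    obtain ⟨c, cs, rfl⟩ : ∃ c cs', cs = c :: cs' := by
      cases cs with
      | nil => simp at hl
      | cons c cs => exact ⟨c, cs, rfl⟩
    have hc : c ^ 2 = 0 := hcs c (by simp)
    have h0' : c + (cs ++ S).sum = 0 := by simpa using h0
    have hp : (b :: r).flatMap (cell n) ++ ([deq, read, deq] ++ p) =
        cell n b ++ (r.flatMap (cell n) ++ ([deq, read, deq] ++ p)) := by
      rw [List.flatMap_cons, List.append_assoc]
    have hq : x :: -x :: (c :: cs ++ S) = x :: -x :: c :: (cs ++ S) := rfl
    rw [hp, hq, V_cell b _ x c (cs ++ S) (by simp at hn; simp; omega) hx hc h0']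
    have e1 : (cs ++ S ++ [c]).map (inl' A) = cs.map (inl' A) ++ (S ++ [c]).map (inl' A) := by
      simp
    have e2 : (S ++ [c]).map (inl' A) ++ cs.map (inl' A) = (S ++ c :: cs).map (inl' A) := by simp
    have hlen : (cs.map (inl' A) ++ (S ++ [c]).map (inl' A)).length = n + 1 := by
      rw [← e1]
      simp at hn ⊢
      omega
    have hsum : (cs.map (inl' A) ++ (S ++ [c]).map (inl' A)).sum = 0 := by
      rw [← e1, sum_inl, List.sum_append, List.sum_cons, List.sum_nil, add_zero, add_comm, h0',
        map_zero]
    rw [e1, V_cells n p r (DualNumber A) (4 * DualNumber.eps) (cs.map (inl' A))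
      ((S ++ [c]).map (inl' A)) (by rw [mul_pow, eps_sq, mul_zero]) (by
        intro d hd
        rw [List.mem_map] at hd
        obtain ⟨d', hd', rfl⟩ := hd
        exact inl_sq (hcs d' (List.mem_cons_of_mem _ hd'))) (by simpa using hl) hlen hsum, e2,
      V_inl, al_map]
    set v := V (-1) p A (S ++ c :: cs)
    set a' := al r cs
    set k : A := (-16) ^ r.length with hk
    have hk' : ((-16) ^ r.length : DualNumber A) = inl' A k := by
      rw [hk, map_pow, map_neg, map_ofNat]
    have h4 : (4 : DualNumber A) = inl' A 4 := (map_ofNat (inl' A) 4).symm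
    rw [hk', h4, al, List.length_cons, pow_succ]
    have e3 : (DualNumber.eps - inl' A (4 * x + bif b then 2 * c else 0)) *
        ((inl' A a' - inl' A k * (inl' A 4 * DualNumber.eps)) * inl' A v) =
        inl' A (-(4 * x + bif b then 2 * c else 0) * a' * v) +
          inl' A ((a' + (4 * x + bif b then 2 * c else 0) * k * 4) * v) * DualNumber.eps := by
      simp only [map_mul, map_neg, map_add]
      linear_combination (-(inl' A k * inl' A 4 * inl' A v)) * (eps_sq (A := A))
    rw [e3]
    rw [← hk]
    have e4 : ∀ s t : A, (inl' A s + inl' A t * DualNumber.eps).snd = t := by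
      intro s t
      simp
    rw [e4]
    cases b
    · simp only [cond_false]
      ring
    · simp only [cond_true]
      ring

/-- **The value of a row.** -/
theorem V_row (n : ℕ) (p : List Ins) (r : List Bool) (cs : List A) (g : A)
    (hcs : ∀ c ∈ cs, c ^ 2 = 0) (hr : r.length = n) (hn : cs.length = n) (h0 : cs.sum + g = 0) :
    V (-1) (rowP n r ++ p) A (cs ++ [g]) = al r cs * V (-1) p A (cs ++ [g]) := by
  have e : rowP n r ++ p = real :: read :: rst :: (rots (n + 1) ++ (r.flatMap (cell n) ++
      ([deq, read, deq] ++ (rots 1 ++ p)))) := by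
    simp [rowP]
  have hs : ((cs ++ [g]).map (inl' A)).sum = 0 := by
    rw [sum_inl]
    simp [h0]
  rw [e, V_real_dual, V_read, V_rst]
  have e1 : ((cs ++ [g]).map (inl' A) ++ [DualNumber.eps]).sum = DualNumber.eps := by
    rw [List.sum_append, hs]
    simp
  have e0 : (cs ++ [g]).map (inl' A) ++ [DualNumber.eps] ++ [-DualNumber.eps] =
      (cs ++ [g]).map (inl' A) ++ [DualNumber.eps, -DualNumber.eps] := by
    rw [List.append_assoc]
    rfl
  rw [e1, e0,
    (step_rots (k := n + 1) ((cs ++ [g]).map (inl' A)) [DualNumber.eps, -DualNumber.eps]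
      (by simp [hn])).2 _ (by
        rw [List.sum_append, hs]
        simp)]
  have e2 : [DualNumber.eps, -DualNumber.eps] ++ (cs ++ [g]).map (inl' A) =
      DualNumber.eps :: -DualNumber.eps :: (cs.map (inl' A) ++ [inl' A g]) := by simp
  rw [e2, V_cells n _ r (DualNumber A) DualNumber.eps (cs.map (inl' A)) [inl' A g] eps_sq (by
        intro d hd
        rw [List.mem_map] at hd
        obtain ⟨d', hd', rfl⟩ := hd
        exact inl_sq (hcs d' hd')) (by simp [hn, hr]) (by simp [hn]) (by
          rw [← hs]
          simp)]
  have e3 : [inl' A g] ++ cs.map (inl' A) = (g :: cs).map (inl' A) := by simp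
  have e4 : V (-1) (rots 1 ++ p) A (g :: cs) = V (-1) p A (cs ++ [g]) :=
    (step_rots (k := 1) [g] cs rfl).2 p (by
      rw [List.sum_append, List.sum_cons, List.sum_nil]
      linear_combination h0)
  rw [e3, V_inl, al_map, e4]
  set v := V (-1) p A (cs ++ [g])
  set k : A := (-16) ^ r.length with hk
  have hk' : ((-16) ^ r.length : DualNumber A) = inl' A k := by
    rw [hk, map_pow, map_neg, map_ofNat]
  rw [hk']
  have e5 : DualNumber.eps * ((inl' A (al r cs) - inl' A k * DualNumber.eps) * inl' A v) =
      inl' A 0 + inl' A (al r cs * v) * DualNumber.eps := by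
    simp only [map_mul, map_zero, zero_add]
    linear_combination (-(inl' A k * inl' A v)) * (eps_sq (A := A))
  rw [e5]
  simp

end Row

end Pool.Agent.H570R2.Mono
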