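import Pool.Agent.H570R2.Mono.Alg1

/-!
# Exact steps at `M = -1`
-/

namespace Pool.Agent.H570R2.Mono

open Pool.Agent.H549R2.Convex

section Basic

variable {A : Type} [CommRing A]

theorem ext_eval (q : List A) (y : A) : (ext q).map (Polynomial.evalRingHom y) = q ++ [y] := by
  simp [ext, List.map_append, List.map_map, Function.comp_def]

theorem eval_V (M : ℤ) (p : List Ins) (q : List A) (y : A) :
    (V M p (Polynomial A) (ext q)).eval y = V M p A (q ++ [y]) := by
  rw [← ext_eval q y, ← V_map]
  rfl

/-- reset -/
theorem V_rst (p : List Ins) (q : List A) : V (-1) (rst :: p) A q = V (-1) p A (q ++ [-q.sum]) := by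
  rw [V_por, ← eval_V]
  have h : ((1 : ℕ) : ℤ) * (-1) + ((0 : ℕ) : ℤ) = -1 := by norm_num
  rw [h, pf_neg_one]

/-- portal at a form with square zero -/
theorem V_por_sq (a b : ℕ) (p : List Ins) (q : List A) (h : q.sum ^ 2 = 0) :
    V (-1) (por a b :: p) A q = V (-1) p A (q ++ [((b : A) - a) * q.sum]) := by
  rw [V_por, pf_sq _ _ h, ← eval_V]
  congr 2
  push_cast
  ring

/-- one rotation -/
theorem V_rot (p : List Ins) (a : A) (q : List A) (h : a + q.sum = 0) :
    V (-1) (deq :: rst :: p) A (a :: q) = V (-1) p A (q ++ [a]) := by
  rw [V_deq, List.tail_cons, V_rst]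
  congr 3
  rw [← sub_eq_zero, ← neg_eq_zero, ← h]
  ring

theorem rots_succ (k : ℕ) : rots (k + 1) = deq :: rst :: rots k := by
  simp [rots, List.replicate_succ]

theorem rots_zero : rots 0 = [] := rfl

/-- rotations -/
theorem V_rots (p : List Ins) (l q : List A) (h : (l ++ q).sum = 0) :
    V (-1) (rots l.length ++ p) A (l ++ q) = V (-1) p A (q ++ l) := by
  induction l generalizing q with
  | nil => simp [rots_zero]
  | cons a l ih =>
    rw [List.length_cons, rots_succ, List.cons_append, List.cons_append, List.cons_append,
      V_rot _ _ _ (by simpa using h), List.append_assoc, ih (q ++ [a]) (by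
        rw [← h]
        simp only [List.sum_append, List.sum_cons, List.sum_nil, List.cons_append]
        ring)]
    simp

end Basic

/-- `l` is an exact step from the queue `q` to the queue `q'`. -/
def Step (A : Type) [CommRing A] (l : List Ins) (q q' : List A) : Prop :=
  q'.sum = q.sum ∧ ∀ p : List Ins, q.sum = 0 → V (-1) (l ++ p) A q = V (-1) p A q'

/-- `l` is an exact local operation from the items `q` to the items `q'`. -/
def Loc (A : Type) [CommRing A] (l : List Ins) (q q' : List A) : Prop :=
  q'.sum = q.sum ∧ ∀ (p : List Ins) (R : List A), (q ++ R).sum = 0 →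
    V (-1) (l ++ p) A (q ++ R) = V (-1) p A (R ++ q')

section Steps

variable {A : Type} [CommRing A]

theorem Step.trans {l l' : List Ins} {q q' q'' : List A} (h : Step A l q q')
    (h' : Step A l' q' q'') : Step A (l ++ l') q q'' := by
  refine ⟨h'.1.trans h.1, fun p hq => ?_⟩
  rw [List.append_assoc, h.2 _ hq, h'.2 _ (h.1.trans hq)]

theorem step_rots {k : ℕ} (l q : List A) (hk : l.length = k) : Step A (rots k) (l ++ q) (q ++ l) := by
  subst hk
  refine ⟨?_, fun p h => V_rots p l q h⟩
  rw [List.sum_append, List.sum_append, add_comm]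

/-- A local operation inside a queue. -/
theorem Loc.step {l : List Ins} {q q' : List A} (h : Loc A l q q') {pre post : ℕ} (P R : List A)
    (hP : P.length = pre) (hR : R.length = post) :
    Step A (at' pre post l) (P ++ q ++ R) (P ++ q' ++ R) := by
  refine ⟨by simp only [List.sum_append, h.1], fun p h0 => ?_⟩
  rw [at', List.append_assoc, List.append_assoc, List.append_assoc,
    (step_rots P (q ++ R) hP).2 _ (by rw [← h0]; simp [add_assoc]), List.append_assoc,
    h.2 _ _ (by rw [← h0]; simp only [List.sum_append]; ring), List.append_assoc,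
    (step_rots R (P ++ q') hR).2 _ (by rw [← h0]; simp only [List.sum_append, h.1]; ring)]

/-- split -/
theorem loc_spl (a b : ℕ) (x y z : A) (hx : x ^ 2 = 0) (hy : y = ((a : A) - b) * x)
    (hz : z = (1 + b - a) * x) : Loc A (spl a b) [x] [y, z] := by
  refine ⟨?_, fun p R h => ?_⟩
  · subst hy hz
    simp
    ring
  · have hR : R.sum = -x := by
      simp at h
      linear_combination h
    rw [spl, List.cons_append, List.cons_append, List.cons_append, List.nil_append, List.cons_append,
      List.nil_append, V_deq, List.tail_cons, V_por_sq _ _ _ _ (by rw [hR, neg_sq, hx]), V_rst]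
    simp only [List.append_assoc, List.cons_append, List.nil_append, List.sum_append, List.sum_cons,
      List.sum_nil, hR]
    congr 4
    · rw [hy]
      ring
    · rw [hz]
      ring_nf

theorem V_deqs (M : ℤ) (p : List Ins) (l q : List A) :
    V M (List.replicate l.length deq ++ p) A (l ++ q) = V M p A q := by
  induction l with
  | nil => simp
  | cons a l ih =>
    rw [List.length_cons, List.replicate_succ, List.cons_append, List.cons_append, V_deq,
      List.tail_cons, ih]

/-- merge -/
theorem loc_mrg (l : List A) {k : ℕ} (hk : l.length = k) : Loc A (mrg k) l [l.sum] := by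
  subst hk
  refine ⟨by simp, fun p R h => ?_⟩
  rw [mrg, List.append_assoc, V_deqs, List.cons_append, List.nil_append, V_rst]
  congr 3
  rw [List.sum_append] at h
  linear_combination -h

end Steps

section Exchange

variable {A : Type} [CommRing A]

/-- the substitution `Z ↦ y₁ + y₂` -/
noncomputable def phi (A : Type) [CommRing A] : Polynomial A →+* Polynomial (Polynomial A) :=
  Polynomial.eval₂RingHom (Polynomial.C.comp Polynomial.C) (Polynomial.X + Polynomial.C Polynomial.X)

theorem phi_eq (G : Polynomial A) :
    phi A G = (G.map Polynomial.C).comp (Polynomial.X + Polynomial.C Polynomial.X) := by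
  rw [phi, Polynomial.coe_eval₂RingHom, Polynomial.comp, Polynomial.eval₂_map]

theorem phi_eval (G : Polynomial A) (u : A) :
    (phi A G).eval (-(Polynomial.X - Polynomial.C u)) = Polynomial.C (G.eval u) := by
  rw [phi_eq, Polynomial.eval_comp]
  have h : (Polynomial.X + Polynomial.C (Polynomial.X : Polynomial A)).eval
      (-(Polynomial.X - Polynomial.C u)) = Polynomial.C u := by
    simp
  rw [h, Polynomial.eval_map, Polynomial.eval₂_at_apply]

theorem phi_derivative (G : Polynomial A) :
    (phi A G).derivative = phi A G.derivative := by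
  rw [phi_eq, phi_eq, Polynomial.derivative_comp, Polynomial.derivative_map]
  simp

theorem fx_core (G : Polynomial A) (u v b : A) (huv : u - v = 2 * b) (hb : b ^ 2 = 0) :
    pf 1 v (pf (-2) (Polynomial.X - Polynomial.C u) (phi A G)) = G.eval (u + 2 * b) := by
  rw [pf_neg_two, phi_derivative, phi_eval, phi_eval, pf_one,
    Polynomial.eval_add_of_sq_eq_zero _ _ _ (by rw [mul_pow, hb, mul_zero])]
  simp only [Polynomial.coeff_sub, Polynomial.coeff_C_zero, sub_mul,
    Polynomial.coeff_X_mul_zero, Polynomial.coeff_C_mul, Polynomial.coeff_X_mul,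
    Polynomial.coeff_C_succ]
  have h1 : (Polynomial.C (Polynomial.eval u G) : Polynomial A).coeff 1 = 0 := by
    rw [Polynomial.coeff_C, if_neg (by norm_num)]
  have h2 : (Polynomial.C (Polynomial.eval u (Polynomial.derivative G)) : Polynomial A).coeff 1 = 0 := by
    rw [Polynomial.coeff_C, if_neg (by norm_num)]
  have h3 : ((Polynomial.X : Polynomial A) * Polynomial.C (Polynomial.eval u (Polynomial.derivative G))).coeff 1 =
      Polynomial.eval u (Polynomial.derivative G) := by
    rw [Polynomial.coeff_X_mul, Polynomial.coeff_C_zero]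
  linear_combination (Polynomial.eval u (Polynomial.derivative G)) * huv

end Exchange

end Pool.Agent.H570R2.Mono
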