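import Pool.Agent.H570R2.Mono.Alg2

/-!
# The exchange block
-/

namespace Pool.Agent.H570R2.Mono

open Pool.Agent.H549R2.Convex

section Exchange

variable {A : Type} [CommRing A]

theorem ext_sum (q : List A) : (ext q).sum = Polynomial.C q.sum + Polynomial.X := by
  rw [ext, List.sum_append, ← map_list_sum]
  simp

theorem length_ext (q : List A) : (ext q).length = q.length + 1 := by
  simp [ext]

/-- **The exchange.** -/
theorem step_fxb {pre post : ℕ} (P R : List A) (hP : P.length = pre) (hR : R.length = post)
    (b w : A) (hb : b ^ 2 = 0) :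
    Step A (fxb pre post) (P ++ [-3 * b, b, -w, 2 * w] ++ R) (P ++ [w, -2 * b] ++ R) := by
  refine ⟨?_, fun p h0 => ?_⟩
  · simp only [List.sum_append, List.sum_cons, List.sum_nil]
    ring
  -- the value of the rest as a polynomial in the new variable
  set u : A := w + b with hu
  set G : Polynomial A := V (-1) p (Polynomial A) (P.map Polynomial.C ++
    [Polynomial.C (-3 * b) + Polynomial.X, Polynomial.C u - Polynomial.X] ++
      R.map Polynomial.C) with hG
  have hPR : P.sum + R.sum = 2 * b - w := by
    simp only [List.sum_append, List.sum_cons, List.sum_nil] at h0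
    linear_combination h0
  -- final evaluation
  have hfin : G.eval (u + 2 * b) = V (-1) p A (P ++ [w, -2 * b] ++ R) := by
    rw [hG, ← Polynomial.coe_evalRingHom, V_map]
    congr 1
    simp only [List.map_append, List.map_map, List.map_cons, List.map_nil]
    congr 1
    · congr 1
      · simp [Function.comp_def]
      · simp [hu]
        ring
    · simp [Function.comp_def]
  -- the part of the program after the portals
  have hphi : ∀ (T : List A), T = R ++ P ++ [-3 * b] →
      V (-1) (rst :: (rots post ++ (at' pre (1 + post) (mrg 3) ++ p)))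
        (Polynomial (Polynomial A)) (ext (ext T)) = phi A G := by
    intro T hT
    have hTs : T.sum = -u := by
      rw [hT, hu]
      simp only [List.sum_append, List.sum_cons, List.sum_nil]
      linear_combination hPR
    set P2 : List (Polynomial (Polynomial A)) := (P.map Polynomial.C).map Polynomial.C with hP2
    set R2 : List (Polynomial (Polynomial A)) := (R.map Polynomial.C).map Polynomial.C with hR2
    set y1 : Polynomial (Polynomial A) := Polynomial.C Polynomial.X with hy1
    set y2 : Polynomial (Polynomial A) := Polynomial.X with hy2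
    set b3 : Polynomial (Polynomial A) := Polynomial.C (Polynomial.C (-3 * b)) with hb3
    set y3 : Polynomial (Polynomial A) := Polynomial.C (Polynomial.C u) - y1 - y2 with hy3
    have e1 : ext (ext T) = R2 ++ P2 ++ [b3, y1, y2] := by
      rw [hT]
      simp [ext, hP2, hR2, hb3, hy1, hy2]
    have e2 : -(ext (ext T)).sum = y3 := by
      rw [ext_sum, ext_sum, hTs, hy3, hy1, hy2]
      simp only [map_add, map_neg]
      ring
    have hP2s : P2.length = pre := by rw [hP2]; simpa using hP
    have hR2s : R2.length = post := by rw [hR2]; simpa using hR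
    have hsum : R2.sum + P2.sum + (b3 + y1 + y2 + y3) = 0 := by
      rw [← e2, e1]
      simp only [List.sum_append, List.sum_cons, List.sum_nil]
      ring
    rw [V_rst, e2, e1]
    have s1 := step_rots R2 (P2 ++ [b3, y1, y2, y3]) hR2s
    have s2 := (loc_mrg [b3, y1, y2] (k := 3) rfl).step (post := 1 + post) P2 ([y3] ++ R2) hP2s
      (by simp [hR2s]; omega)
    have r1 : R2 ++ P2 ++ [b3, y1, y2] ++ [y3] = R2 ++ (P2 ++ [b3, y1, y2, y3]) := by simp
    have r2 : P2 ++ [b3, y1, y2, y3] ++ R2 = P2 ++ [b3, y1, y2] ++ ([y3] ++ R2) := by simp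
    rw [r1, s1.2 _ (by rw [← hsum]; simp only [List.sum_append, List.sum_cons, List.sum_nil]; ring),
      r2, s2.2 _ (by rw [← hsum]; simp only [List.sum_append, List.sum_cons, List.sum_nil]; ring),
      hG, V_map]
    congr 1
    simp only [List.map_append, List.map_cons, List.map_nil, List.sum_cons, List.sum_nil,
      List.append_assoc, List.cons_append, List.nil_append]
    have hc : ∀ x : A, phi A (Polynomial.C x) = Polynomial.C (Polynomial.C x) := by
      intro x
      simp [phi]
    have hx : phi A Polynomial.X = y2 + y1 := by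
      simp [phi, hy1, hy2]
    have hm : ∀ l : List A, (l.map Polynomial.C).map (phi A) = (l.map Polynomial.C).map Polynomial.C := by
      intro l
      simp [Function.comp_def, hc]
    rw [hm, hm, map_add, map_sub, hc, hc, hx, hy3, hb3]
    congr 1
    congr 1
    · ring
    · congr 1
      ring
  -- the portals
  rw [← hfin, ← fx_core G u (w - b) b (by rw [hu]; ring) hb]
  have hprog : fxb pre post ++ p = rots pre ++ (deq :: rst :: deq :: deq :: por 0 1 :: deq ::
      por 2 0 :: rst :: (rots post ++ (at' pre (1 + post) (mrg 3) ++ p))) := by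
    simp [fxb, at']
  rw [hprog]
  have s0 := step_rots P ([-3 * b, b, -w, 2 * w] ++ R) hP
  rw [List.append_assoc, s0.2 _ (by rw [← h0]; simp only [List.sum_append]; ring)]
  have r0 : [-3 * b, b, -w, 2 * w] ++ R ++ P = (-3 * b) :: ([b, -w, 2 * w] ++ R ++ P) := by simp
  rw [r0, V_rot _ _ _ (by
    simp only [List.sum_append, List.sum_cons, List.sum_nil]
    linear_combination hPR)]
  have r1 : [b, -w, 2 * w] ++ R ++ P ++ [-3 * b] = b :: (-w) :: (2 * w) :: (R ++ P ++ [-3 * b]) := by
    simp
  rw [r1, V_deq, V_deq, List.tail_cons, List.tail_cons, V_por]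
  have n1 : ((0 : ℕ) : ℤ) * (-1) + ((1 : ℕ) : ℤ) = 1 := by norm_num
  have n2 : ((2 : ℕ) : ℤ) * (-1) + ((0 : ℕ) : ℤ) = -2 := by norm_num
  rw [n1]
  have d1 : (2 * w :: (R ++ P ++ [-3 * b])).sum = w - b := by
    simp only [List.sum_append, List.sum_cons, List.sum_nil]
    linear_combination hPR
  rw [d1]
  congr 1
  have r2 : ext (2 * w :: (R ++ P ++ [-3 * b])) = Polynomial.C (2 * w) :: ext (R ++ P ++ [-3 * b]) := by
    simp [ext]
  rw [V_deq, r2, List.tail_cons, V_por, n2, hphi _ rfl]
  congr 1
  rw [ext_sum]
  have d2 : (R ++ P ++ [-3 * b]).sum = -u := by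
    simp only [List.sum_append, List.sum_cons, List.sum_nil]
    rw [hu]
    linear_combination hPR
  rw [d2, map_neg]
  ring

end Exchange

end Pool.Agent.H570R2.Mono
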