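import Pool.Agent.H570R2.Mono.Alg3

/-!
# Cells and rows
-/

namespace Pool.Agent.H570R2.Mono

open Pool.Agent.H549R2.Convex

section Cells

variable {A : Type} [CommRing A]

theorem Step.of_eq {l : List Ins} {q q' r r' : List A} (h : Step A l q q') (h1 : r = q)
    (h2 : r' = q') : Step A l r r' := by
  subst h1 h2
  exact h

/-- split inside a queue -/
theorem step_spl (a b : ℕ) {pre post : ℕ} (P R : List A) (hP : P.length = pre)
    (hR : R.length = post) (x y z : A) (hx : x ^ 2 = 0) (hy : y = ((a : A) - b) * x)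
    (hz : z = (1 + b - a) * x) :
    Step A (at' pre post (spl a b)) (P ++ [x] ++ R) (P ++ [y, z] ++ R) :=
  (loc_spl a b x y z hx hy hz).step P R hP hR

/-- merge inside a queue -/
theorem step_mrg {k pre post : ℕ} (P l R : List A) (hP : P.length = pre) (hl : l.length = k)
    (hR : R.length = post) (x : A) (hx : x = l.sum) :
    Step A (at' pre post (mrg k)) (P ++ l ++ R) (P ++ [x] ++ R) := by
  subst hx
  exact (loc_mrg l hl).step P R hP hR

/-- the move `(q, w) ↦ (-3q, w, 4q)` behind one item -/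
theorem step_adv {post : ℕ} (a q w : A) (R : List A) (hR : R.length = post) (hq : q ^ 2 = 0)
    (hw : w ^ 2 = 0) :
    Step A (adv 1 post) (a :: q :: w :: R) (a :: (-3 * q) :: w :: (4 * q) :: R) := by
  have s1 : Step A (at' 1 (1 + post) (spl 3 0)) (a :: q :: w :: R)
      (a :: (3 * q) :: (-2 * q) :: w :: R) :=
    step_spl 3 0 [a] (w :: R) rfl (by simp [hR]; omega) q (3 * q) (-2 * q) hq
      (by push_cast; ring) (by push_cast; ring)
  have s2 : Step A (at' 1 (2 + post) (spl 0 1)) (a :: (3 * q) :: (-2 * q) :: w :: R)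
      (a :: (-3 * q) :: (6 * q) :: (-2 * q) :: w :: R) :=
    step_spl 0 1 [a] ((-2 * q) :: w :: R) rfl (by simp [hR]; omega) (3 * q) (-3 * q) (6 * q)
      (by rw [mul_pow, hq, mul_zero]) (by push_cast; ring) (by push_cast; ring)
  have s3 : Step A (at' (1 + 3) post (spl 0 1)) (a :: (-3 * q) :: (6 * q) :: (-2 * q) :: w :: R)
      (a :: (-3 * q) :: (6 * q) :: (-2 * q) :: (-w) :: (2 * w) :: R) :=
    step_spl 0 1 [a, -3 * q, 6 * q, -2 * q] R rfl hR w (-w) (2 * w) hw
      (by push_cast; ring) (by push_cast; ring)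
  have s4 : Step A (fxb (1 + 1) post)
      (a :: (-3 * q) :: (6 * q) :: (-2 * q) :: (-w) :: (2 * w) :: R)
      (a :: (-3 * q) :: w :: (4 * q) :: R) := by
    refine (step_fxb [a, -3 * q] R rfl hR (-2 * q) w (by rw [mul_pow, hq, mul_zero])).of_eq ?_ ?_
    · simp only [List.cons_append, List.nil_append, List.cons.injEq, and_true, true_and]
      ring
    · simp only [List.cons_append, List.nil_append, List.cons.injEq, and_true, true_and]
      ring
  exact ((s1.trans s2).trans s3).trans s4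

/-- the part of a cell before the token block -/
theorem step_cell1 {n : ℕ} (x c : A) (R : List A) (hR : R.length = n) (hx : x ^ 2 = 0)
    (hc : c ^ 2 = 0) :
    Step A (at' 2 n (spl 2 0) ++ at' 3 n (spl 2 0) ++ adv 1 (n + 2) ++ at' 0 (n + 4) (mrg 2))
      (x :: -x :: c :: R) ((4 * x) :: (2 * c) :: (-4 * x) :: (-2 * c) :: c :: R) := by
  have s1 : Step A (at' 2 n (spl 2 0)) (x :: -x :: c :: R) (x :: -x :: (2 * c) :: (-c) :: R) :=
    step_spl 2 0 [x, -x] R rfl hR c (2 * c) (-c) hc (by push_cast; ring) (by push_cast; ring)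
  have s2 : Step A (at' 3 n (spl 2 0)) (x :: -x :: (2 * c) :: (-c) :: R)
      (x :: -x :: (2 * c) :: (-2 * c) :: c :: R) :=
    step_spl 2 0 [x, -x, 2 * c] R rfl hR (-c) (-2 * c) c (by rw [neg_sq, hc])
      (by push_cast; ring) (by push_cast; ring)
  have s3 : Step A (adv 1 (n + 2)) (x :: -x :: (2 * c) :: (-2 * c) :: c :: R)
      (x :: (-3 * -x) :: (2 * c) :: (4 * -x) :: (-2 * c) :: c :: R) :=
    step_adv x (-x) (2 * c) ((-2 * c) :: c :: R) (by simp [hR]) (by rw [neg_sq, hx])
      (by rw [mul_pow, hc, mul_zero])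
  have s4 : Step A (at' 0 (n + 4) (mrg 2))
      (x :: (-3 * -x) :: (2 * c) :: (4 * -x) :: (-2 * c) :: c :: R)
      ((4 * x) :: (2 * c) :: (4 * -x) :: (-2 * c) :: c :: R) :=
    step_mrg [] [x, -3 * -x] ((2 * c) :: (4 * -x) :: (-2 * c) :: c :: R) rfl rfl
      (by simp [hR]) (4 * x) (by simp only [List.sum_cons, List.sum_nil]; ring)
  refine (((s1.trans s2).trans s3).trans s4).of_eq rfl ?_
  simp only [List.cons.injEq, and_true, true_and]
  ring

/-- the part of a cell after the token block -/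
theorem step_cell2 {n : ℕ} (x c : A) (R : List A) (hR : R.length = n) (hx : x ^ 2 = 0)
    (hc : c ^ 2 = 0) :
    Step A (adv 1 n ++ at' 0 (n + 3) (spl 6 0) ++ at' 1 (n + 2) (mrg 2) ++ at' 2 (n + 1) (spl 0 1) ++
      fxb 0 (n + 1) ++ rots 1) (x :: -x :: c :: R) ((4 * x) :: (-(4 * x)) :: (R ++ [c])) := by
  have s1 : Step A (adv 1 n) (x :: -x :: c :: R) (x :: (-3 * -x) :: c :: (4 * -x) :: R) :=
    step_adv x (-x) c R hR (by rw [neg_sq, hx]) hc
  have s2 : Step A (at' 0 (n + 3) (spl 6 0)) (x :: (-3 * -x) :: c :: (4 * -x) :: R)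
      ((6 * x) :: (-5 * x) :: (-3 * -x) :: c :: (4 * -x) :: R) :=
    step_spl 6 0 [] ((-3 * -x) :: c :: (4 * -x) :: R) rfl (by simp [hR]) x (6 * x) (-5 * x) hx
      (by push_cast; ring) (by push_cast; ring)
  have s3 : Step A (at' 1 (n + 2) (mrg 2)) ((6 * x) :: (-5 * x) :: (-3 * -x) :: c :: (4 * -x) :: R)
      ((6 * x) :: (-2 * x) :: c :: (4 * -x) :: R) :=
    step_mrg [6 * x] [-5 * x, -3 * -x] (c :: (4 * -x) :: R) rfl rfl (by simp [hR]) (-2 * x)
      (by simp only [List.sum_cons, List.sum_nil]; ring)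
  have s4 : Step A (at' 2 (n + 1) (spl 0 1)) ((6 * x) :: (-2 * x) :: c :: (4 * -x) :: R)
      ((6 * x) :: (-2 * x) :: (-c) :: (2 * c) :: (4 * -x) :: R) :=
    step_spl 0 1 [6 * x, -2 * x] ((4 * -x) :: R) rfl (by simp [hR]) c (-c) (2 * c) hc
      (by push_cast; ring) (by push_cast; ring)
  have s5 : Step A (fxb 0 (n + 1)) ((6 * x) :: (-2 * x) :: (-c) :: (2 * c) :: (4 * -x) :: R)
      (c :: (4 * x) :: (4 * -x) :: R) := by
    refine (step_fxb [] ((4 * -x) :: R) rfl (by simp [hR]) (-2 * x) c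
      (by rw [mul_pow, hx, mul_zero])).of_eq ?_ ?_
    · simp only [List.cons_append, List.nil_append, List.cons.injEq, and_true]
      ring
    · simp only [List.cons_append, List.nil_append, List.cons.injEq, and_true, true_and]
      ring
  have s6 : Step A (rots 1) (c :: (4 * x) :: (4 * -x) :: R) ((4 * x) :: (4 * -x) :: R ++ [c]) :=
    step_rots [c] ((4 * x) :: (4 * -x) :: R) rfl
  refine (((((s1.trans s2).trans s3).trans s4).trans s5).trans s6).of_eq rfl ?_
  simp only [List.cons_append, List.cons.injEq, and_true, true_and]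
  ring

end Cells

end Pool.Agent.H570R2.Mono
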