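import Pool.Agent.H549R2.Convex3

/-!
# Queue programs

A program handles a queue of columns.  Instructions are triples `(kind, a, b)` of naturals:
* `deq = (0, 0, 0)`: remove the column at the head of the queue,
* `real = (1, 0, 0)`: append a column (of multiplicity one) to the tail,
* `read = (2, 0, 0)`: write a row whose ones are the columns that are in the queue now,
* `por a b = (3, a, b)`: append `a * M + b` equal columns to the tail and write `a * M + b` rows
  whose ones are the columns in the queue now (the new ones included).
Rows and columns in the order of time form a 0-1 matrix in which the ones of every row are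
consecutive and both ends move to the right.
-/

namespace Pool.Agent.H570R2.Mono

open Pool.Agent.H549R2.Convex

/-- Instructions `(kind, a, b)`. -/
abbrev Ins := ℕ × ℕ × ℕ

abbrev deq : Ins := (0, 0, 0)
abbrev real : Ins := (1, 0, 0)
abbrev read : Ins := (2, 0, 0)
abbrev por (a b : ℕ) : Ins := (3, a, b)

/-! ### The matrix of a program -/

/-- The state is `(h, t)`: the keys in the queue are `h, ..., t - 1`. -/
def step (s : ℕ × ℕ) (i : Ins) : ℕ × ℕ :=
  if i.1 = 0 then (min (s.1 + 1) s.2, s.2) else if i.1 = 2 then s else (s.1, s.2 + 1)

/-- The rows (closed intervals of keys) written by one instruction. -/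
def rowsAt (M : ℕ) (i : Ins) (s : ℕ × ℕ) : List (ℕ × ℕ) :=
  if i.1 ≤ 1 then [] else if i.1 = 2 then [(s.1, s.2 - 1)]
  else List.replicate (i.2.1 * M + i.2.2) (s.1, s.2)

/-- The keys of the columns appended by one instruction. -/
def colsAt (M : ℕ) (i : Ins) (s : ℕ × ℕ) : List ℕ :=
  if i.1 = 0 ∨ i.1 = 2 then [] else if i.1 = 1 then [s.2]
  else List.replicate (i.2.1 * M + i.2.2) s.2

/-- The rows of a program started in the state `s`. -/
def rws (M : ℕ) : List Ins → ℕ × ℕ → List (ℕ × ℕ)
  | [], _ => []
  | i :: p, s => rowsAt M i s ++ rws M p (step s i)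

/-- The columns of a program started in the state `s`. -/
def cls (M : ℕ) : List Ins → ℕ × ℕ → List ℕ
  | [], _ => []
  | i :: p, s => colsAt M i s ++ cls M p (step s i)

/-- The matrix of a program with multiplicity parameter `M`. -/
def matP (p : List Ins) (M : ℕ) : List (List Bool) := mat (rws M p (1, 1)) (cls M p (1, 1))

/-- The product of the factorials of the multiplicities of the columns. -/
def facP (p : List Ins) (M : ℕ) : ℕ :=
  ((List.range (p.length + 1)).map (fun κ => ((cls M p (1, 1)).count κ).factorial)).prod

/-- number of instructions `read` -/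
def reads : List Ins → ℕ
  | [] => 0
  | i :: p => (if i.1 = 2 then 1 else 0) + reads p

/-- number of instructions `real` -/
def reals : List Ins → ℕ
  | [] => 0
  | i :: p => (if i.1 = 1 then 1 else 0) + reals p

/-! ### The value of a program -/

/-- The value of a block of `N` equal columns and `N` equal rows with form `D + X`, on a
polynomial `G`: the coefficient of `X ^ N` in `(D + X) ^ N * G` if `N` is a natural number. -/
noncomputable def pf {A : Type} [CommRing A] (N : ℤ) (D : A) (G : Polynomial A) : A :=
  G.sum fun k c => ((Ring.choose N k : ℤ) : A) * D ^ k * c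

/-- The queue `q` with a new variable at the tail. -/
noncomputable def ext {A : Type} [CommRing A] (q : List A) : List (Polynomial A) :=
  q.map Polynomial.C ++ [Polynomial.X]

/-- The value of a program on a queue of elements of the ring `A`. -/
noncomputable def V (M : ℤ) : List Ins → (A : Type) → [CommRing A] → List A → A
  | [], _, _, _ => 1
  | (0, _, _) :: p, A, _, q => V M p A q.tail
  | (1, _, _) :: p, A, _, q => (V M p (Polynomial A) (ext q)).coeff 1
  | (2, _, _) :: p, A, _, q => q.sum * V M p A q
  | (_ + 3, a, b) :: p, A, _, q => pf (a * M + b) q.sum (V M p (Polynomial A) (ext q))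

/-! ### The programs of the reduction -/

/-- reset: append a column that makes the sum of the queue zero (at `M = -1`) -/
abbrev rst : Ins := por 1 0

/-- rotate `k` items -/
def rots (k : ℕ) : List Ins := (List.replicate k [deq, rst]).flatten

/-- local operation `l` behind `pre` items, with `post` items behind it -/
def at' (pre post : ℕ) (l : List Ins) : List Ins := rots pre ++ l ++ rots post

/-- split one item -/
def spl (a b : ℕ) : List Ins := [deq, por a b, rst]

/-- merge `k` items -/
def mrg (k : ℕ) : List Ins := List.replicate k deq ++ [rst]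

/-- the exchange `(-3b, b, -w, 2w) ↦ (w, -2b)` behind `pre` items, with `post` items behind it -/
def fxb (pre post : ℕ) : List Ins :=
  at' pre post [deq, rst, deq, deq, por 0 1, deq, por 2 0, rst] ++ at' pre (1 + post) (mrg 3)

/-- the move `(q, w) ↦ (-3q, w, 4q)` -/
def adv (pre post : ℕ) : List Ins :=
  at' pre (1 + post) (spl 3 0) ++ at' pre (2 + post) (spl 0 1) ++ at' (pre + 3) post (spl 0 1) ++
    fxb (pre + 1) post

/-- the token block `(4p, w, -4p, -w) ↦ (ρ, -ρ)` with a new item `ρ` -/
def tok (β : Bool) : List Ins :=
  bif β then [deq, real, deq, read, deq, deq, rst] else [deq, real, read, deq, deq, deq, rst]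

/-- one cell of the matrix -/
def cell (n : ℕ) (β : Bool) : List Ins :=
  at' 2 n (spl 2 0) ++ at' 3 n (spl 2 0) ++ adv 1 (n + 2) ++ at' 0 (n + 4) (mrg 2) ++
  (tok β ++ rots (n + 1)) ++
  adv 1 n ++ at' 0 (n + 3) (spl 6 0) ++ at' 1 (n + 2) (mrg 2) ++ at' 2 (n + 1) (spl 0 1) ++
  fxb 0 (n + 1) ++ rots 1

/-- one row of the matrix -/
def rowP (n : ℕ) (r : List Bool) : List Ins :=
  [real, read, rst] ++ rots (n + 1) ++ r.flatMap (cell n) ++ [deq, read, deq] ++ rots 1

/-- the program of a square matrix -/
def prog (A : List (List Bool)) : List Ins :=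
  List.replicate A.length real ++ [rst] ++ A.flatMap (rowP A.length)

end Pool.Agent.H570R2.Mono
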