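import Pool.Agent.H570R2.Mono.Stubs

/-!
# Extrapolation to `M = -1`
-/

namespace Pool.Agent.H570R2.Mono

namespace E

/-- functions on the integers with vanishing `k`-th difference -/
def PF {B : Type} [AddCommGroup B] : ℕ → (ℤ → B) → Prop
  | 0, f => ∀ x, f x = 0
  | k + 1, f => PF k (fun x => f (x + 1) - f x)

theorem PF_zero {B : Type} [AddCommGroup B] (k : ℕ) : PF k (fun _ : ℤ => (0 : B)) := by
  induction k with
  | zero => intro x; rfl
  | succ k ih =>
    show PF k (fun _ => (0 : B) - 0)
    simpa using ih

theorem PF_add {B : Type} [AddCommGroup B] (k : ℕ) : ∀ {f g : ℤ → B}, PF k f → PF k g →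
    PF k (fun x => f x + g x) := by
  induction k with
  | zero => intro f g hf hg x; show f x + g x = 0; rw [hf x, hg x, add_zero]
  | succ k ih =>
    intro f g hf hg
    have h := ih (f := fun x => f (x + 1) - f x) (g := fun x => g (x + 1) - g x) hf hg
    show PF k (fun x => (f (x + 1) + g (x + 1)) - (f x + g x))
    have e : (fun x => (f (x + 1) + g (x + 1)) - (f x + g x)) =
        fun x => (f (x + 1) - f x) + (g (x + 1) - g x) := by
      funext x; abel
    rw [e]; exact h

theorem PF_succ {B : Type} [AddCommGroup B] (k : ℕ) : ∀ {f : ℤ → B}, PF k f → PF (k + 1) f := by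
  induction k with
  | zero =>
    intro f hf x
    show f (x + 1) - f x = 0
    rw [hf, hf, sub_zero]
  | succ k ih =>
    intro f hf
    exact ih (f := fun x => f (x + 1) - f x) hf

theorem PF_mono {B : Type} [AddCommGroup B] {k l : ℕ} (h : k ≤ l) {f : ℤ → B} (hf : PF k f) :
    PF l f := by
  induction h with
  | refl => exact hf
  | step _ ih => exact PF_succ _ ih

theorem PF_shift {B : Type} [AddCommGroup B] (k : ℕ) : ∀ {f : ℤ → B} (c : ℤ), PF k f →
    PF k (fun x => f (x + c)) := by
  induction k with
  | zero => intro f c hf x; exact hf _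
  | succ k ih =>
    intro f c hf
    have h := ih (f := fun x => f (x + 1) - f x) c hf
    show PF k (fun x => f (x + 1 + c) - f (x + c))
    have e : (fun x => f (x + 1 + c) - f (x + c)) = fun x => f (x + c + 1) - f (x + c) := by
      funext x
      rw [add_right_comm]
    rw [e]; exact h

theorem PF_hom {B B' : Type} [AddCommGroup B] [AddCommGroup B'] (φ : B →+ B') (k : ℕ) :
    ∀ {f : ℤ → B}, PF k f → PF k (fun x => φ (f x)) := by
  induction k with
  | zero => intro f hf x; show φ (f x) = 0; rw [hf x, map_zero]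
  | succ k ih =>
    intro f hf
    have h := ih (f := fun x => f (x + 1) - f x) hf
    show PF k (fun x => φ (f (x + 1)) - φ (f x))
    simpa [map_sub] using h

theorem PF_const {B : Type} [AddCommGroup B] (c : B) : PF 1 (fun _ : ℤ => c) := by
  intro x
  exact sub_self c

theorem PF_sum {B : Type} [AddCommGroup B] {ι : Type} (k : ℕ) (s : Finset ι) (f : ι → ℤ → B)
    (h : ∀ i ∈ s, PF k (f i)) : PF k (fun x => ∑ i ∈ s, f i x) := by
  classical
  induction s using Finset.induction_on with
  | empty => simpa using PF_zero k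
  | insert a s ha ih =>
    simp only [Finset.sum_insert ha]
    exact PF_add k (h a (Finset.mem_insert_self _ _))
      (ih (fun i hi => h i (Finset.mem_insert_of_mem hi)))

theorem PF_mul {B : Type} [CommRing B] (s : ℕ) : ∀ (k l : ℕ) (f g : ℤ → B), k + l = s →
    PF (k + 1) f → PF (l + 1) g → PF (s + 1) (fun x => f x * g x) := by
  induction s with
  | zero =>
    intro k l f g hs hf hg
    obtain rfl : k = 0 := by omega
    obtain rfl : l = 0 := by omega
    intro x
    have h1 := hf x
    have h2 := hg x
    show f (x + 1) * g (x + 1) - f x * g x = 0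
    rw [sub_eq_zero.1 h1, sub_eq_zero.1 h2, sub_self]
  | succ s ih =>
    intro k l f g hs hf hg
    show PF (s + 1) (fun x => f (x + 1) * g (x + 1) - f x * g x)
    have e : (fun x => f (x + 1) * g (x + 1) - f x * g x) =
        fun x => f (x + 1) * (g (x + 1) - g x) + (f (x + 1) - f x) * g x := by
      funext x; ring
    rw [e]
    refine PF_add _ ?_ ?_
    · rcases l with _ | l
      · have h2 : ∀ x, g (x + 1) - g x = 0 := hg
        have : (fun x => f (x + 1) * (g (x + 1) - g x)) = fun _ => (0 : B) := by
          funext x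
          rw [h2 x, mul_zero]
        rw [this]
        exact PF_zero _
      · exact ih k l (fun x => f (x + 1)) (fun x => g (x + 1) - g x) (by omega)
          (PF_shift _ 1 hf) hg
    · rcases k with _ | k
      · have h2 : ∀ x, f (x + 1) - f x = 0 := hf
        have : (fun x => (f (x + 1) - f x) * g x) = fun _ => (0 : B) := by
          funext x
          rw [h2 x, zero_mul]
        rw [this]
        exact PF_zero _
      · exact ih k l (fun x => f (x + 1) - f x) g (by omega) hf hg

theorem PF_choose (k : ℕ) : PF (k + 1) (fun x : ℤ => Ring.choose x k) := by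
  induction k with
  | zero =>
    intro x
    simp
  | succ k ih =>
    show PF (k + 1) (fun x : ℤ => Ring.choose (x + 1) (k + 1) - Ring.choose x (k + 1))
    have e : (fun x : ℤ => Ring.choose (x + 1) (k + 1) - Ring.choose x (k + 1)) =
        fun x : ℤ => Ring.choose x k := by
      funext x
      rw [Ring.choose_succ_succ]
      ring
    rw [e]; exact ih

theorem PF_affine {B : Type} [AddCommGroup B] (a : ℕ) (k : ℕ) : ∀ (b : ℤ) (f : ℤ → B), PF k f →
    PF k (fun x => f (a * x + b)) := by
  induction k with
  | zero => intro b f hf x; exact hf _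
  | succ k ih =>
    intro b f hf
    show PF k (fun x => f (a * (x + 1) + b) - f (a * x + b))
    have e : (fun x : ℤ => f (a * (x + 1) + b) - f (a * x + b)) =
        fun x : ℤ => ∑ i ∈ Finset.range a,
          (f ((a * x + (b + (i : ℤ))) + 1) - f (a * x + (b + (i : ℤ)))) := by
      funext x
      have h := Finset.sum_range_sub (fun i : ℕ => f (a * x + b + (i : ℤ))) a
      have e1 : (a : ℤ) * (x + 1) + b = a * x + b + a := by ring
      rw [e1]
      simp only [Nat.cast_zero, add_zero] at h
      rw [← h]
      refine Finset.sum_congr rfl (fun i _ => ?_)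
      congr 2
      · push_cast; ring
      · ring
    rw [e]
    refine PF_sum _ _ _ (fun i _ => ?_)
    exact ih (b + i) (fun x => f (x + 1) - f x) hf

/-- the degree -/
def Kd : List Ins → ℕ
  | [] => 0
  | _ :: p => Kd p + reads p

theorem reads_le (p : List Ins) : reads p ≤ p.length := by
  induction p with
  | nil => exact le_rfl
  | cons i p ih =>
    simp only [reads, List.length_cons]
    split_ifs <;> omega

theorem Kd_le (p : List Ins) : Kd p ≤ p.length * p.length := by
  induction p with
  | nil => exact le_rfl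
  | cons i p ih =>
    have h := reads_le p
    simp only [Kd, List.length_cons]
    nlinarith

theorem main (hD : StubDeg) (p : List Ins) : ∀ (A : Type) [CommRing A] (q : List A),
    PF (Kd p + 1) (fun M => V M p A q) := by
  induction p with
  | nil =>
    intro A _ q
    simp only [V]
    exact PF_const 1
  | cons i p ih =>
    intro A _ q
    obtain ⟨kd, a, b⟩ := i
    have hm : Kd p + 1 ≤ Kd ((kd, a, b) :: p) + 1 := by simp only [Kd]; omega
    match kd with
    | 0 =>
      simp only [V]
      exact PF_mono hm (ih A q.tail)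
    | 1 =>
      simp only [V]
      exact PF_mono hm (PF_hom (Polynomial.lcoeff A 1).toAddMonoidHom _
        (ih (Polynomial A) (ext q)))
    | 2 =>
      simp only [V]
      exact PF_mono hm (PF_hom (AddMonoidHom.mulLeft q.sum) _ (ih A q))
    | kd + 3 =>
      simp only [V, pf]
      have e : (fun M : ℤ => (V M p (Polynomial A) (ext q)).sum fun k c =>
          ((Ring.choose ((a : ℤ) * M + b) k : ℤ) : A) * q.sum ^ k * c) =
          fun M : ℤ => ∑ k ∈ Finset.range (reads p + 1),
            ((Ring.choose ((a : ℤ) * M + b) k : ℤ) : A) *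
              (q.sum ^ k * (V M p (Polynomial A) (ext q)).coeff k) := by
        funext M
        rw [Polynomial.sum_over_range' _ _ (reads p + 1)
          (Nat.lt_succ_of_le (hD M p A q))]
        · refine Finset.sum_congr rfl (fun k _ => by ring)
        · intro k; rw [mul_zero]
      rw [e]
      refine PF_sum _ _ _ (fun k hk => ?_)
      have hk' : k ≤ reads p := by
        have := Finset.mem_range.1 hk; omega
      have h1 : PF (reads p + 1) (fun M : ℤ => ((Ring.choose ((a : ℤ) * M + b) k : ℤ) : A)) :=
        PF_mono (by omega) (PF_hom (Int.castAddHom A) _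
          (PF_affine a (k + 1) b (fun x => Ring.choose x k) (PF_choose k)))
      have h2 : PF (Kd p + 1) (fun M : ℤ =>
          q.sum ^ k * (V M p (Polynomial A) (ext q)).coeff k) :=
        PF_hom (AddMonoidHom.mulLeft (q.sum ^ k)) _
          (PF_hom (Polynomial.lcoeff A k).toAddMonoidHom _ (ih (Polynomial A) (ext q)))
      exact PF_mul _ _ _ _ _ (by simp only [Kd]; omega) h1 h2

theorem PF_sum_choose (n : ℕ) : ∀ (f : ℤ → ℤ) (x : ℤ), PF n f →
    ∑ j ∈ Finset.range (n + 1), (-1 : ℤ) ^ j * (n.choose j) * f (x + j) = 0 := by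
  induction n with
  | zero =>
    intro f x hf
    have := hf x
    simpa using this
  | succ n ih =>
    intro f x hf
    have h := ih (fun x => f (x + 1) - f x) x hf
    rw [Finset.sum_range_succ']
    have e1 : ∑ k ∈ Finset.range (n + 1), (-1 : ℤ) ^ (k + 1) * ((n + 1).choose (k + 1)) *
        f (x + ((k + 1 : ℕ) : ℤ)) =
        ∑ k ∈ Finset.range (n + 1), (-1 : ℤ) ^ (k + 1) * (n.choose k) *
          f (x + ((k + 1 : ℕ) : ℤ)) +
        ∑ k ∈ Finset.range (n + 1), (-1 : ℤ) ^ (k + 1) * (n.choose (k + 1)) *
          f (x + ((k + 1 : ℕ) : ℤ)) := by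
      rw [← Finset.sum_add_distrib]
      refine Finset.sum_congr rfl (fun k _ => ?_)
      rw [Nat.choose_succ_succ]
      push_cast
      ring
    have e2 : ∑ k ∈ Finset.range (n + 1), (-1 : ℤ) ^ (k + 1) * (n.choose (k + 1)) *
          f (x + ((k + 1 : ℕ) : ℤ)) + (-1 : ℤ) ^ 0 * (n.choose 0) * f (x + ((0 : ℕ) : ℤ)) =
        ∑ k ∈ Finset.range (n + 1), (-1 : ℤ) ^ k * (n.choose k) * f (x + k) := by
      rw [← Finset.sum_range_succ' (fun k => (-1 : ℤ) ^ k * (n.choose k) * f (x + (k : ℤ))) (n + 1),
        Finset.sum_range_succ]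
      rw [Nat.choose_succ_self]
      simp
    have e3 : ∑ k ∈ Finset.range (n + 1), (-1 : ℤ) ^ k * (n.choose k) *
        (f (x + k + 1) - f (x + k)) =
        - (∑ k ∈ Finset.range (n + 1), (-1 : ℤ) ^ (k + 1) * (n.choose k) *
          f (x + ((k + 1 : ℕ) : ℤ))) -
        ∑ k ∈ Finset.range (n + 1), (-1 : ℤ) ^ k * (n.choose k) * f (x + k) := by
      rw [← Finset.sum_neg_distrib, ← Finset.sum_sub_distrib]
      refine Finset.sum_congr rfl (fun k _ => ?_)
      have e4 : x + ((k + 1 : ℕ) : ℤ) = x + k + 1 := by push_cast; ring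
      rw [e4]
      ring
    have e5 : (((n + 1).choose 0 : ℕ) : ℤ) = ((n.choose 0 : ℕ) : ℤ) := by simp
    rw [e1, e5, add_assoc, e2]
    rw [e3] at h
    linarith

end E

open E in
theorem stub_ext : StubExt := by
  intro hD p K hK
  have h1 : PF (K + 1) (fun M => V M p ℤ []) :=
    PF_mono (by have := Kd_le p; omega) (main hD p ℤ [])
  have h2 := PF_sum_choose (K + 1) _ (-1) h1
  rw [Finset.sum_range_succ'] at h2
  have e1 : ∑ k ∈ Finset.range (K + 1), (-1 : ℤ) ^ (k + 1) * ((K + 1).choose (k + 1)) *
      V (-1 + ((k + 1 : ℕ) : ℤ)) p ℤ [] =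
      - ∑ M ∈ Finset.range (K + 1), (-1 : ℤ) ^ M * ((K + 1).choose (M + 1)) * V (M : ℤ) p ℤ [] := by
    rw [← Finset.sum_neg_distrib]
    refine Finset.sum_congr rfl (fun k _ => ?_)
    have e2 : (-1 : ℤ) + ((k + 1 : ℕ) : ℤ) = k := by push_cast; ring
    rw [e2]
    ring
  rw [e1] at h2
  simp only [Nat.choose_zero_right, Nat.cast_one, pow_zero, one_mul, Nat.cast_zero,
    add_zero] at h2
  linarith

end Pool.Agent.H570R2.Mono
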