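import Pool.Agent.H570R2.Mono.Defs
import Pool.Agent.H549R2.Convex5

/-!
# Exact statements of the tasks
-/

namespace Pool.Agent.H570R2.Mono

open Pool.Agent.H549R2.Convex

/-! ### Graphs and staircase matrices -/

/-- The 0-1 matrix with the given rows is a staircase matrix: the ones in the row `i` are exactly
in the columns `l i ≤ j < r i`, where `l` and `r` are nondecreasing. -/
def Stair (A : List (List Bool)) : Prop :=
  ∃ l r : ℕ → ℕ, (∀ i j, i ≤ j → j < A.length → l i ≤ l j ∧ r i ≤ r j) ∧
    ∀ i < A.length, ∀ j < (A.getD i []).length, (ent A i j = true ↔ l i ≤ j ∧ j < r i)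

/-- The graph of a list of points `(x, y)` of the plane: the vertices are the positions in the
list, two of them are adjacent iff the line through the two points has negative slope.  If all
first coordinates are distinct and all second coordinates are distinct, this is the permutation
graph of the permutation that compares the two orders of the points. -/
def permGraph (l : List (ℕ × ℕ)) : SimpleGraph (Fin l.length) where
  Adj i j := (l[i].1 < l[j].1 ∧ l[j].2 < l[i].2) ∨ (l[j].1 < l[i].1 ∧ l[i].2 < l[j].2)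
  symm := ⟨fun _ _ h => h.symm⟩
  loopless := ⟨fun _ h => h.elim (fun h => lt_irrefl _ h.1) (fun h => lt_irrefl _ h.1)⟩

/-- The number of perfect matchings of the graph of a list of points. -/
noncomputable def pmP (l : List (ℕ × ℕ)) : ℕ :=
  Nat.card {M : (permGraph l).Subgraph // M.IsPerfectMatching}

/-- The list of points describes a bipartite permutation graph. -/
def BipPerm (l : List (ℕ × ℕ)) : Prop :=
  (l.map Prod.fst).Nodup ∧ (l.map Prod.snd).Nodup ∧ (permGraph l).IsBipartite

/-- The points of a matrix given by intervals of keys and keys of columns. -/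
def pts (RS : List (ℕ × ℕ)) (CL : List ℕ) : List (ℕ × ℕ) :=
  (List.range RS.length).map (fun i =>
    (2 * ((RS.getD i (0, 0)).2 + 1) * (RS.length + 1) + i,
      2 * (RS.getD i (0, 0)).1 * (RS.length + 1) + i)) ++
  (List.range CL.length).map (fun j =>
    ((2 * CL.getD j 0 + 1) * (RS.length + 1) + j, (2 * CL.getD j 0 + 1) * (RS.length + 1) + j))

/-! ### Task statements -/

/-- D: degree bound -/
def StubDeg : Prop := ∀ (M : ℤ) (p : List Ins) (A : Type) [CommRing A] (q : List A),
  (V M p (Polynomial A) (ext q)).natDegree ≤ reads p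

/-- E: extrapolation to `M = -1` (may use `StubDeg`) -/
def StubExt : Prop := StubDeg → ∀ (p : List Ins) (K : ℕ), p.length * p.length ≤ K →
  ∑ M ∈ Finset.range (K + 1), (-1 : ℤ) ^ M * ((K + 1).choose (M + 1)) * V (M : ℤ) p ℤ [] =
    V (-1) p ℤ []

/-- L: the permanent of the matrix of a program -/
def StubLink : Prop := ∀ (p : List Ins) (M : ℕ), reads p = reals p →
  (F (matP p M) : ℤ) = facP p M * V (M : ℤ) p ℤ []

/-- S: rows and columns are sorted, the matrix of a program is a staircase -/
def StubSort : Prop := ∀ (p : List Ins) (M : ℕ),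
  (rws M p (1, 1)).Pairwise (fun r s => r.1 ≤ s.1 ∧ r.2 ≤ s.2) ∧
  (∀ r ∈ rws M p (1, 1), r.1 ≤ r.2 + 1) ∧ (cls M p (1, 1)).Pairwise (· ≤ ·) ∧
  (∀ κ ∈ cls M p (1, 1), κ ≤ p.length) ∧
  (reads p = reals p → (rws M p (1, 1)).length = (cls M p (1, 1)).length) ∧
  Stair (matP p M)

/-- G: perfect matchings of the bipartite permutation graph -/
def StubGraph : Prop := ∀ (RS : List (ℕ × ℕ)) (CL : List ℕ), RS.length = CL.length →
  RS.Pairwise (fun r s => r.1 ≤ s.1 ∧ r.2 ≤ s.2) → (∀ r ∈ RS, r.1 ≤ r.2 + 1) →
  CL.Pairwise (· ≤ ·) → pmP (pts RS CL) = F (mat RS CL) ∧ BipPerm (pts RS CL)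

/-- C: counting instructions in the program of a square matrix -/
def StubCount : Prop := ∀ A : List (List Bool), (∀ r ∈ A, r.length = A.length) →
  reads (prog A) = reals (prog A) ∧
  (prog A).length = (prog (List.replicate A.length (List.replicate A.length false))).length

end Pool.Agent.H570R2.Mono

namespace Pool.Agent.NPC.H570Mono

open Pool.Agent.H549R2.Convex Pool.Agent.NPC.Cnt Pool.Agent.NPC.H549Convex Pool.Agent.H570R2.Mono

/-- P: polynomial time -/
def StubPoly : Prop :=
  Poly prog ∧
  (∀ A : List (List Bool), ∀ i ∈ prog A, i.2.1 ≤ 6 ∧ i.2.2 ≤ 1) ∧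
  (∀ (α : Type) [TEnc α] (p : α → List Ins) (m : α → ℕ), Poly p → UPoly m →
    (∀ x, ∀ i ∈ p x, i.2.1 ≤ 6 ∧ i.2.2 ≤ 1) →
    Poly (fun a => matP (p a) (m a)) ∧ Poly (fun a => facP (p a) (m a)) ∧
    Poly (fun a => rws (m a) (p a) (1, 1)) ∧ Poly (fun a => cls (m a) (p a) (1, 1))) ∧
  Poly (fun x : List (ℕ × ℕ) × List ℕ => pts x.1 x.2)

end Pool.Agent.NPC.H570Mono
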